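import Pool.Agent.Run7.h893.NF.Inst

/-!
# For almost all tuples of fibres all relations between the values of the higher solutions come from the torsors
-/

set_option autoImplicit false

open PowerSeries
open Pool.Agent.Y113 hiding Bm
open Pool.Agent.Y120.GF Pool.Agent.Y120.GH Pool.Agent.Y119.HZ
open Pool.Agent.Y119.HY (Am Ac_nil cm Ep E Hf Hc Yf Rel Gal E_mul_neg E_isom conj_E)

namespace Run7.h893.NF

open Run7.h893.HO

section one

variable {n q : ℕ} {Q : Polynomial ℚ} {J0 : Matrix (Fin n) (Fin n) ℂ} {B : ℂ → Matrix (Fin n) (Fin n) ℂ}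

/-- the holomorphic part in block form -/
lemma Hx_bk (z : ℂ) : Hf (Gc (hx n q Q)) z = bk (Hf (Hc n Q) z)
    (Matrix.of fun i j => Hf (Gc (hx n q Q)) z (Fin.castAdd q i) (Fin.natAdd n j)) 0 1 := by
  ext i j
  refine Fin.addCases (fun i => ?_) (fun i => ?_) i <;> refine Fin.addCases (fun j => ?_) (fun j => ?_) j
  · rw [bk_cc, Hx_cc]
  · rw [bk_cn]
    rfl
  · rw [bk_nc, Hx_ge z (by simp), if_neg]
    · rfl
    · simp only [Fin.val_castAdd, Fin.val_natAdd]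
      have := j.2
      omega
  · rw [bk_nn, Hx_ge z (by simp), Matrix.one_apply]
    simp only [Fin.val_natAdd]
    by_cases hij : i = j
    · subst hij
      simp
    · rw [if_neg hij, if_neg]
      intro h
      exact hij (Fin.ext (by omega))

/-- the exponential in block form -/
lemma Ex_bk (L : ℂ) : E (cm (Am (n + q))) L = bk (E (cm (Am n)) L)
    (Matrix.of fun i j => E (cm (Am (n + q))) L (Fin.castAdd q i) (Fin.natAdd n j)) 0 (E (cm (Am q)) L) := by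
  ext i j
  refine Fin.addCases (fun i => ?_) (fun i => ?_) i <;> refine Fin.addCases (fun j => ?_) (fun j => ?_) j
  · rw [bk_cc, E_Am, E_Am]
    rfl
  · rw [bk_cn]
    rfl
  · rw [bk_nc, E_Am]
    unfold ee
    rw [if_neg]
    · rfl
    · simp only [Fin.val_castAdd, Fin.val_natAdd]
      have := j.2
      omega
  · rw [bk_nn, E_Am, E_Am]
    exact ee_add _ _ _

/-- **invariance of the relations between the entries of the holomorphic part** -/
theorem rel_inv_x (hF : FamY n Q J0 B) {R : MvPolynomial (Fin ((n + q) * (n + q))) (Polynomial ℚ)}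
    (hR : MvPolynomial.aeval (gf (hx n q Q)) R = 0) {x : ℝ} (hx' : 0 < x) (hx1 : x < 1) {κ : Matrix (Fin n) (Fin n) ℂ}
    (hκ : κ.transpose * J0 * κ = J0) (a : Matrix (Fin n) (Fin q) ℂ) :
    MvPolynomial.eval₂ (evq (x : ℂ)) (fun j => (Hf (Gc (hx n q Q)) (x : ℂ) * bk κ a 0 1) (ix (n + q) j).1 (ix (n + q) j).2) R = 0 := by
  set N := cm (Am (n + q)) with hNd
  have hN : N ^ (n + q) = 0 := Ac_nil
  have hS := sy_x (q := q) hF.g
  -- the relation
  have hrel : PR N R ∈ Rel (Yx n q Q) := by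
    intro y hy hy1
    rw [ev_PR]
    have e1 : Yx n q Q (y : ℂ) * E N (-Complex.log y) = Hf (Gc (hx n q Q)) (y : ℂ) := by
      unfold Yx Yf
      rw [Matrix.mul_assoc, E_mul_neg hN, mul_one]
    rw [e1]
    have hy' : 1 < 1 / y := by rw [lt_div_iff₀ hy]; linarith
    have h1 := (ev_aeval_s hS hy' R).2
    rw [hR] at h1
    have h2 : ev (1 / y) (0 : ℚ⟦X⟧) = 0 := by
      unfold ev
      simp
    rw [h2, Complex.ofReal_zero, one_div_one_div] at h1
    have h3 : (fun j => ((ev (1 / y) (gf (hx n q Q) j) : ℝ) : ℂ)) =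
        fun j => Hf (Gc (hx n q Q)) (y : ℂ) (ix (n + q) j).1 (ix (n + q) j).2 := by
      funext j
      unfold gf
      rw [ev_Gp, one_div_one_div]
    rw [h3] at h1
    exact h1.symm
  set L : ℂ := Complex.log x with hL
  have hg0 := conj_E hN hS.sol (-L) _ (gal_all hF hκ a)
  rw [neg_neg] at hg0
  have h1 := hg0 _ hrel x hx' hx1
  rw [ev_PR] at h1
  have e2 : Yf N (Gc (hx n q Q)) (x : ℂ) * (E N (-L) * bk κ a 0 1 * E N L) * E N (-L) = Hf (Gc (hx n q Q)) (x : ℂ) * bk κ a 0 1 := by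
    unfold Yf
    have e3 : E N L * E N (-L) = 1 := E_mul_neg hN L
    calc Hf (Gc (hx n q Q)) (x : ℂ) * E N (Complex.log x) * (E N (-L) * bk κ a 0 1 * E N L) * E N (-L) =
          Hf (Gc (hx n q Q)) (x : ℂ) * (E N L * E N (-L)) * bk κ a 0 1 * (E N L * E N (-L)) := by
            simp only [Matrix.mul_assoc]
            rfl
      _ = _ := by rw [e3, mul_one, mul_one]
  rw [← hL] at h1
  rw [e2] at h1
  exact h1

end one

variable {k : ℕ} {n q : Fin k → ℕ} {Q : Fin k → Polynomial ℚ} {J0 : ∀ i, Matrix (Fin (n i)) (Fin (n i)) ℂ}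
  {B : ∀ i, ℂ → Matrix (Fin (n i)) (Fin (n i)) ℂ}

theorem relI_vanish_x (hQ : ∀ i, FamW (n i) (q i) (Q i) (J0 i) (B i)) {δ : ℕ} {t : Fin k → ℕ} (ht : ∀ i, 2 ≤ t i)
    {κ : ∀ i, Matrix (Fin (n i)) (Fin (n i)) ℂ}
    (hκ : ∀ i, (κ i).transpose * J0 i * κ i = J0 i) (a : ∀ i, Matrix (Fin (n i)) (Fin (q i)) ℂ) (l : Fin k → ℂ)
    {P : MvPolynomial (Vx fun i => n i + q i) ℂ} (hP : P ∈ relI δ (fun i => gf (hx (n i) (q i) (Q i))) t) :
    MvPolynomial.aeval (pt (fun i j => (Hf (Gc (hx (n i) (q i) (Q i))) (((1 / (t i : ℝ) : ℝ)) : ℂ) * bk (κ i) (a i) 0 1)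
      (ix (n i + q i) j).1 (ix (n i + q i) j).2) l) P = 0 := by
  set θ := pt (fun i j => (Hf (Gc (hx (n i) (q i) (Q i))) (((1 / (t i : ℝ) : ℝ)) : ℂ) * bk (κ i) (a i) 0 1)
      (ix (n i + q i) j).1 (ix (n i + q i) j).2) l with hθ
  have h1 : relI δ (fun i => gf (hx (n i) (q i) (Q i))) t ≤ RingHom.ker (MvPolynomial.aeval (R := ℂ) θ).toRingHom := by
    unfold relI
    rw [Ideal.span_le]
    rintro _ ⟨i, R, -, hR, rfl⟩
    show (MvPolynomial.aeval θ) (MvPolynomial.rename (fun j => (⟨i, some j⟩ : Vx fun i => n i + q i)) (MvPolynomial.map (spec (t i)) R)) = 0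
    rw [MvPolynomial.aeval_rename, MvPolynomial.aeval_def, MvPolynomial.eval₂_map]
    have h2 : (algebraMap ℂ ℂ).comp (spec (t i)) = evq (((1 / (t i : ℝ) : ℝ)) : ℂ) := by
      rw [← spec_eq]
      rfl
    rw [h2]
    have h3 : (2 : ℝ) ≤ t i := by exact_mod_cast ht i
    have h4 := rel_inv_x (hQ i).toFamY (R := R) hR (x := 1 / (t i : ℝ)) (by positivity) (by rw [div_lt_one (by linarith)]; linarith)
      (hκ i) (a i)
    have h5 : (θ ∘ fun j => (⟨i, some j⟩ : Vx fun i => n i + q i)) = fun j : Fin ((n i + q i) * (n i + q i)) =>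
        (Hf (Gc (hx (n i) (q i) (Q i))) (((1 / (t i : ℝ) : ℝ)) : ℂ) * bk (κ i) (a i) 0 1) (ix (n i + q i) j).1 (ix (n i + q i) j).2 := by
      funext j
      rfl
    rw [h5]
    exact h4
  exact h1 hP

/-- the value of the solutions -/
noncomputable def Yv (n q : ℕ) (Q : Polynomial ℚ) (t : ℕ) : Matrix (Fin (n + q)) (Fin (n + q)) ℂ :=
  Hf (Gc (hx n q Q)) (((1 / (t : ℝ) : ℝ)) : ℂ) * E (cm (Am (n + q))) (-((Real.log t : ℝ) : ℂ))

/-- **Few exceptional tuples.** -/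
theorem tuples_x (k δ D : ℕ) (n q : Fin k → ℕ) (Q : Fin k → Polynomial ℚ) (J0 : ∀ i, Matrix (Fin (n i)) (Fin (n i)) ℂ)
    (B : ∀ i, ℂ → Matrix (Fin (n i)) (Fin (n i)) ℂ) (hQ : ∀ i, FamW (n i) (q i) (Q i) (J0 i) (B i)) :
    ∃ c C : ℝ, 0 < c ∧ 0 ≤ C ∧ ∀ (V : Submodule ℚ ℂ) [Module.Finite ℚ V], Module.finrank ℚ V ≤ D →
      ∀ Ω : (∀ i, Matrix (Fin (n i + q i)) (Fin (n i + q i)) ℂ), ∀ (x : Fin k → ℕ) (N : ℕ), (∀ i, 1 ≤ x i) → 1 ≤ N →
      ∀ S : Finset (Fin k → ℕ), (∀ t ∈ S, (∀ i, x i < t i ∧ t i ≤ x i + N) ∧ ∃ P : MvPolynomial (Jx fun i => n i + q i) ℂ,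
        P.totalDegree ≤ δ ∧ (∀ s, P.coeff s ∈ V) ∧
        MvPolynomial.aeval (pw (fun i => ((Real.log (t i) : ℝ) : ℂ)) fun i => Yv (n i) (q i) (Q i) (t i) * Ω i) P = 0 ∧
        ∃ (l : Fin k → ℂ) (g : ∀ i, Matrix (Fin (n i)) (Fin (n i)) ℂ) (y : ∀ i, Matrix (Fin (n i)) (Fin (q i)) ℂ),
          (∀ i, (g i).transpose * B i (((1 / (t i : ℝ) : ℝ)) : ℂ) * g i = J0 i) ∧
          MvPolynomial.aeval (pw l fun i => bk (g i) (y i) 0 (E (cm (Am (q i))) (-l i)) * Ω i) P ≠ 0) →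
      (S.card : ℝ) ≤ C * (N : ℝ) ^ (k - 1) * ∑ i, (1 + N / ((x i : ℝ) + N) ^ c) := by
  classical
  obtain ⟨c, C, hc, hC, hmain⟩ := tuples k (δ * dg fun i => n i + q i)
    ((Fintype.card (Option (Ix fun i => n i + q i))) ^ δ * D) (fun i => (n i + q i) * (n i + q i))
    (fun i => gf (hx (n i) (q i) (Q i))) (fun i => by
      obtain ⟨C₁, -, hs, -⟩ := Pool.Agent.Y119.HY.SDc.unif
        (y := fun p : Fin (n i + q i) × Fin (n i + q i) => Gp (hx (n i) (q i) (Q i)) p.1 p.2) fun p => (hQ i).xsd p.1 p.2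
      exact ⟨C₁, fun j m => hs (ix (n i + q i) j) m⟩) (fun i => by
      obtain ⟨W, hW1, hW2⟩ := (hQ i).wex
      obtain ⟨W', hW1', hW2'⟩ := wex_x hW1 hW2 (hQ i).xsd
      exact hfam_hf_s (sy_x (hQ i).g) (hQ i).xsd hW1' hW2' _)
  refine ⟨c, C, hc, hC, ?_⟩
  intro V _ hV Ω x N hx hN S hS
  obtain ⟨hfin, hrank⟩ := Vn_fin Ω V δ
  refine hmain (Vn Ω V δ) (hrank.trans (Nat.mul_le_mul_left _ hV)) x N hN S fun t htS => ?_
  obtain ⟨hbox, P, hPd, hPV, hP0, l, g, y, hg, hPg⟩ := hS t htS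
  refine ⟨hbox, MvPolynomial.aeval (sub' Ω) P, (aeval_MV' Ω hPd hPV).2, (aeval_MV' Ω hPd hPV).1, ?_, ?_⟩
  · -- the value
    have h1 : valpt (fun i => gf (Run7.h893.NF.hx (n i) (q i) (Q i))) t =
        pt (fun i j => Hf (Gc (Run7.h893.NF.hx (n i) (q i) (Q i))) (((1 / (t i : ℝ) : ℝ)) : ℂ) (ix (n i + q i) j).1 (ix (n i + q i) j).2)
          (fun i => ((Real.log (t i) : ℝ) : ℂ)) := by
      unfold valpt
      congr 1
      funext i j
      exact ev_Gp _ _ _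
    have h2 : MvPolynomial.aeval (valpt (fun i => gf (Run7.h893.NF.hx (n i) (q i) (Q i))) t) (MvPolynomial.aeval (sub' Ω) P) =
        MvPolynomial.aeval (fun v => MvPolynomial.aeval (valpt (fun i => gf (Run7.h893.NF.hx (n i) (q i) (Q i))) t) (sub' Ω v)) P :=
      MvPolynomial.aeval_bind₁ _ _ _
    rw [h2, h1]
    have h3 := fun v => aeval_sub' Ω (fun i => Hf (Gc (Run7.h893.NF.hx (n i) (q i) (Q i))) (((1 / (t i : ℝ) : ℝ)) : ℂ))
      (fun i => ((Real.log (t i) : ℝ) : ℂ)) v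
    simp only [h3]
    exact hP0
  · intro hmem
    apply hPg
    have ht2 : ∀ i, 2 ≤ t i := fun i => by
      have := (hbox i).1
      have := hx i
      omega
    have hN : ∀ i, (cm (Am (n i))) ^ n i = 0 := fun i => Ac_nil
    have hNq : ∀ i, (cm (Am (q i))) ^ q i = 0 := fun i => Ac_nil
    have hNn : ∀ i, (cm (Am (n i + q i))) ^ (n i + q i) = 0 := fun i => Ac_nil
    have hEiso : ∀ i (s : ℂ), (E (cm (Am (n i))) s).transpose * J0 i * E (cm (Am (n i))) s = J0 i :=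
      fun i s => E_isom (hN i) (hQ i).zero s
    have hHform := fun i => (hQ i).toFam.Hf_form (ht2 i)
    have hinv := fun i => torsor_inv (hQ i).det (hHform i) (hg i)
    choose κ₀ hκ₀ hκ₀g using hinv
    let κ : ∀ i, Matrix (Fin (n i)) (Fin (n i)) ℂ := fun i => κ₀ i * E (cm (Am (n i))) (l i)
    have hκ : ∀ i, (κ i).transpose * J0 i * κ i = J0 i := fun i => isom_mul (hκ₀ i) (hEiso i (l i))
    -- the inverse of the homogeneous part
    have hHinv : ∀ i, ∃ W : Matrix (Fin (n i)) (Fin (n i)) ℂ, Hf (Hc (n i) (Q i)) (((1 / (t i : ℝ) : ℝ)) : ℂ) * W = 1 := by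
      intro i
      refine ⟨(J0 i)⁻¹ * ((Hf (Hc (n i) (Q i)) (((1 / (t i : ℝ) : ℝ)) : ℂ)).transpose * B i (((1 / (t i : ℝ) : ℝ)) : ℂ)), ?_⟩
      refine mul_eq_one_comm.1 ?_
      rw [Matrix.mul_assoc, hHform i, Matrix.nonsing_inv_mul _ (Ne.isUnit (hQ i).det)]
    choose W hW using hHinv
    let a : ∀ i, Matrix (Fin (n i)) (Fin (q i)) ℂ := fun i => W i * (g i * (Matrix.of fun b j =>
      E (cm (Am (n i + q i))) (l i) (Fin.castAdd (q i) b) (Fin.natAdd (n i) j)) + y i * E (cm (Am (q i))) (l i) -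
      (Matrix.of fun b j => Hf (Gc (Run7.h893.NF.hx (n i) (q i) (Q i))) (((1 / (t i : ℝ) : ℝ)) : ℂ) (Fin.castAdd (q i) b) (Fin.natAdd (n i) j)))
    have h1 := relI_vanish_x hQ ht2 hκ a l hmem
    have h2 : MvPolynomial.aeval (pt (fun i j => (Hf (Gc (Run7.h893.NF.hx (n i) (q i) (Q i))) (((1 / (t i : ℝ) : ℝ)) : ℂ) * bk (κ i) (a i) 0 1)
        (ix (n i + q i) j).1 (ix (n i + q i) j).2) l) (MvPolynomial.aeval (sub' Ω) P) =
        MvPolynomial.aeval (fun v => MvPolynomial.aeval (pt (fun i j => (Hf (Gc (Run7.h893.NF.hx (n i) (q i) (Q i))) (((1 / (t i : ℝ) : ℝ)) : ℂ) *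
          bk (κ i) (a i) 0 1) (ix (n i + q i) j).1 (ix (n i + q i) j).2) l) (sub' Ω v)) P := MvPolynomial.aeval_bind₁ _ _ _
    rw [h2] at h1
    have h3 := fun v => aeval_sub' Ω (fun i => Hf (Gc (Run7.h893.NF.hx (n i) (q i) (Q i))) (((1 / (t i : ℝ) : ℝ)) : ℂ) * bk (κ i) (a i) 0 1) l v
    simp only [h3] at h1
    have h4 : (fun i => Hf (Gc (Run7.h893.NF.hx (n i) (q i) (Q i))) (((1 / (t i : ℝ) : ℝ)) : ℂ) * bk (κ i) (a i) 0 1 *
        E (cm (Am (n i + q i))) (-l i) * Ω i) = fun i => bk (g i) (y i) 0 (E (cm (Am (q i))) (-l i)) * Ω i := by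
      funext i
      have e0 : Hf (Hc (n i) (Q i)) (((1 / (t i : ℝ) : ℝ)) : ℂ) * κ i = g i * E (cm (Am (n i))) (l i) := by
        show Hf (Hc (n i) (Q i)) (((1 / (t i : ℝ) : ℝ)) : ℂ) * (κ₀ i * E (cm (Am (n i))) (l i)) = _
        rw [← Matrix.mul_assoc, hκ₀g]
      have e1 : Hf (Gc (Run7.h893.NF.hx (n i) (q i) (Q i))) (((1 / (t i : ℝ) : ℝ)) : ℂ) * bk (κ i) (a i) 0 1 =
          bk (g i) (y i) 0 (E (cm (Am (q i))) (-l i)) * E (cm (Am (n i + q i))) (l i) := by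
        rw [Ex_bk, bk_mul, Hx_bk, bk_mul]
        congr 1
        · rw [Matrix.mul_zero, add_zero, Matrix.mul_zero, add_zero, e0]
        · show Hf (Hc (n i) (Q i)) (((1 / (t i : ℝ) : ℝ)) : ℂ) * (W i * (_ : Matrix (Fin (n i)) (Fin (q i)) ℂ)) + _ = _
          rw [← Matrix.mul_assoc, hW, Matrix.one_mul, Matrix.mul_one, sub_add_cancel]
        · simp
        · rw [Matrix.zero_mul, zero_add, Matrix.zero_mul, zero_add, Matrix.mul_one]
          have := E_mul_neg (hNq i) (-l i)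
          rw [neg_neg] at this
          exact this.symm
      rw [e1, Matrix.mul_assoc (bk _ _ _ _), E_mul_neg (hNn i), Matrix.mul_one]
    rw [h4] at h1
    exact h1

end Run7.h893.NF
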