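import Pool.Agent.Run7.h893.HO.Grp

/-!
# Groups generated by reflections or transvections of a degenerate form

The form has the radical `ℂ^q`, and there is a regular nilpotent element of its Lie algebra.
-/

set_option autoImplicit false

open Matrix Pool.Agent.Y119.HY

namespace Run7.h893.NF

open Run7.h893.HO

/-! ### transvections of degenerate alternating forms -/

section skew

variable {n : ℕ} {J N : Matrix (Fin n) (Fin n) ℂ} (hJ : J.transpose = -J) (hN : N ^ n = 0)
  (hNJ : N.transpose * J + J * N = 0) {v : Fin n → ℂ}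
  (hv1 : (N ^ (n - 1)) *ᵥ v ≠ 0) (hv2 : ∃ x, om J v x ≠ 0) (S : Submonoid (Matrix (Fin n) (Fin n) ℂ))
  (hE : ∀ c : ℂ, ∀ g ∈ S, E N c * g * E N (-c) ∈ S) (hvS : ∀ s, tv J v s ∈ S)
  (hcl : ∀ M : Matrix (Fin n) (Fin n) (Polynomial ℂ), (∀ c : ℂ, c ≠ 0 → M.map (Polynomial.eval c) ∈ S) →
    M.map (Polynomial.eval 0) ∈ S)

include hJ hN hNJ hv1 hv2 hE hvS hcl in
lemma exists_sub_d (r : ℕ) (hr1 : 1 ≤ r) (hr : r ≤ n) : ∃ U : Submodule ℂ (Fin n → ℂ), v ∈ U ∧ r ≤ Module.finrank ℂ U ∧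
    ∀ x ∈ U, ∀ s, tv J x s ∈ S := by
  have hv0 : v ≠ 0 := by
    intro h
    apply hv1
    rw [h, mulVec_zero]
  induction r with
  | zero => omega
  | succ r ih =>
    rcases Nat.eq_zero_or_pos r with h0 | hpos
    · subst h0
      refine ⟨Submodule.span ℂ {v}, Submodule.mem_span_singleton_self v, ?_, ?_⟩
      · rw [finrank_span_singleton hv0]
      · intro x hx s
        obtain ⟨c, rfl⟩ := Submodule.mem_span_singleton.1 hx
        rw [tv_smul]
        exact hvS _
    · obtain ⟨U, hvU, hUr, hU⟩ := ih hpos (by omega)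
      by_cases hbig : r + 1 ≤ Module.finrank ℂ U
      · exact ⟨U, hvU, hbig, hU⟩
      have hUlt : U < ⊤ := by
        rw [lt_top_iff_ne_top]
        rintro rfl
        rw [finrank_top, Module.finrank_fin_fun] at hbig
        omega
      obtain ⟨l, hl0, hlU⟩ := Submodule.exists_le_ker_of_lt_top U hUlt
      -- the functional `om · v`
      set l2 : (Fin n → ℂ) →ₗ[ℂ] ℂ :=
        { toFun := fun x => om J v x, map_add' := om_add v, map_smul' := fun c x => om_smul c v x } with hl2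
      have hl20 : l2 ≠ 0 := by
        intro h
        obtain ⟨x, hx⟩ := hv2
        apply hx
        have : l2 x = 0 := by rw [h]; rfl
        exact this
      have hp : pl N v l * pl N v l2 ≠ 0 := mul_ne_zero (pl_ne hN hv1 hl0) (pl_ne hN hv1 hl20)
      obtain ⟨c, hc⟩ : ∃ c, (pl N v l * pl N v l2).eval c ≠ 0 := by
        by_contra hcon
        push Not at hcon
        exact hp (Polynomial.funext fun c => by rw [hcon c, Polynomial.eval_zero])
      rw [Polynomial.eval_mul, pl_eval, pl_eval] at hc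
      set w := E N c *ᵥ v with hw
      have hlw : l w ≠ 0 := left_ne_zero_of_mul hc
      have hvw : om J v w ≠ 0 := right_ne_zero_of_mul hc
      have hwv : om J w v ≠ 0 := by rw [om_skew hJ]; exact neg_ne_zero.2 hvw
      have hwS : ∀ s, tv J w s ∈ S := fun s => conj_mem hN hNJ S hE hvS c s
      have hwU : w ∉ U := fun h => hlw (LinearMap.mem_ker.1 (hlU h))
      refine ⟨U ⊔ Submodule.span ℂ {w}, Submodule.mem_sup_left hvU, ?_, ?_⟩
      · have h1 : U < U ⊔ Submodule.span ℂ {w} :=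
          lt_of_le_of_ne le_sup_left fun h => hwU (by
            rw [h]; exact Submodule.mem_sup_right (Submodule.mem_span_singleton_self w))
        have := Submodule.finrank_lt_finrank_of_lt h1
        omega
      · intro x hx
        obtain ⟨y, hy, z, hz, rfl⟩ := Submodule.mem_sup.1 hx
        obtain ⟨a, rfl⟩ := Submodule.mem_span_singleton.1 hz
        by_cases h1 : om J w y = 0
        · refine closed_mem S hcl (w := v) fun η hη s => ?_
          have h2 : om J w (y + η • v) ≠ 0 := by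
            rw [om_add, om_smul, h1, zero_add]
            exact mul_ne_zero hη hwv
          have h3 := add_mem' hJ S hwS (hU _ (U.add_mem hy (U.smul_mem η hvU))) h2 a s
          have e : y + a • w + η • v = y + η • v + a • w := by abel
          rw [e]
          exact h3
        · exact add_mem' hJ S hwS (hU y hy) h1 a

include hJ hN hNJ hv1 hv2 hE hvS hcl in
lemma all_tv_d (x : Fin n → ℂ) (s : ℂ) : tv J x s ∈ S := by
  rcases Nat.eq_zero_or_pos n with h0 | hpos
  · subst h0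
    have : tv J x s = 1 := Subsingleton.elim _ _
    rw [this]
    exact one_mem _
  · obtain ⟨U, -, hU1, hU2⟩ := exists_sub_d hJ hN hNJ hv1 hv2 S hE hvS hcl n hpos le_rfl
    have : U = ⊤ := by
      apply Submodule.eq_top_of_finrank_eq
      rw [Module.finrank_fin_fun]
      have := Submodule.finrank_le U
      rw [Module.finrank_fin_fun] at this
      omega
    exact hU2 x (by rw [this]; trivial) s

include hJ in
/-- the symplectic group is generated by transvections -/
theorem gen_tv (hdet : J.det ≠ 0) (hall : ∀ x s, tv J x s ∈ S) (g : Matrix (Fin n) (Fin n) ℂ)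
    (hg : g.transpose * J * g = J) : g ∈ S := by
  set ω : (Fin n → ℂ) →ₗ[ℂ] (Fin n → ℂ) →ₗ[ℂ] ℂ := Matrix.toLinearMap₂' ℂ J with hω
  have hωa : ∀ u v, ω u v = om J u v := by
    intro u v
    rw [hω, Matrix.toLinearMap₂'_apply']
    rfl
  have h0 : ∀ v, ω v v = 0 := fun v => by rw [hωa, om_self hJ]
  have hnd : ∀ u, (∀ v, ω u v = 0) → u = 0 := by
    intro u hu
    have h1 : ∀ w : Fin n → ℂ, u ⬝ᵥ w = 0 := by
      intro w
      have h2 := hu (J⁻¹ *ᵥ w)
      rw [hωa] at h2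
      unfold om at h2
      rw [mulVec_mulVec, mul_nonsing_inv _ (Ne.isUnit hdet), one_mulVec] at h2
      exact h2
    funext i
    have := h1 (Pi.single i 1)
    rwa [dotProduct_single_one] at this
  have hpres : ∀ u v, ω (Matrix.toLin' g u) (Matrix.toLin' g v) = ω u v := by
    intro u v
    rw [hωa, hωa, toLin'_apply, toLin'_apply]
    unfold om
    rw [mulVec_mulVec, ← vecMul_transpose, ← dotProduct_mulVec, mulVec_mulVec, ← Matrix.mul_assoc, hg]
  have hmem := Pool.Agent.W948.ZC.TR.aux ℂ _ (Fin n → ℂ) ω rfl h0 hnd (Matrix.toLin' g) hpres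
  have key : ∀ T ∈ Pool.Agent.W948.ZC.TR.G ω, LinearMap.toMatrix' T ∈ S := by
    intro T hT
    unfold Pool.Agent.W948.ZC.TR.G at hT
    induction hT using Submonoid.closure_induction with
    | mem T h =>
      obtain ⟨c, u, rfl⟩ := h
      have h1 : LinearMap.toMatrix' (1 + c • (ω u).smulRight u) = tv J u c := by
        apply (Matrix.toLin'.injective)
        rw [toLin'_toMatrix']
        ext x i
        have h2 : (Matrix.toLin' (tv J u c)) (Pi.single x 1) = tv J u c *ᵥ (Pi.single x 1) := rfl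
        rw [LinearMap.comp_apply, LinearMap.comp_apply, LinearMap.single_apply, h2, tv_mulVec, ← hωa]
        simp [LinearMap.add_apply, mul_assoc]
      rw [h1]
      exact hall _ c
    | one =>
      have : LinearMap.toMatrix' (1 : Module.End ℂ (Fin n → ℂ)) = 1 := LinearMap.toMatrix'_id
      rw [this]
      exact one_mem _
    | mul A B _ _ hA hB =>
      have : LinearMap.toMatrix' (A * B) = LinearMap.toMatrix' A * LinearMap.toMatrix' B :=
        LinearMap.toMatrix'_mul A B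
      rw [this]
      exact mul_mem hA hB
  have := key _ hmem
  rwa [LinearMap.toMatrix'_toLin'] at this

end skew

/-! ### blocks -/

variable {n q : ℕ}

/-- block matrices -/
def bk (A : Matrix (Fin n) (Fin n) ℂ) (B : Matrix (Fin n) (Fin q) ℂ) (C : Matrix (Fin q) (Fin n) ℂ)
    (D : Matrix (Fin q) (Fin q) ℂ) : Matrix (Fin (n + q)) (Fin (n + q)) ℂ :=
  (Matrix.fromBlocks A B C D).submatrix finSumFinEquiv.symm finSumFinEquiv.symm

/-- block vectors -/
def vk (x : Fin n → ℂ) (β : Fin q → ℂ) : Fin (n + q) → ℂ := Sum.elim x β ∘ finSumFinEquiv.symm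

lemma bk_mul (A A' : Matrix (Fin n) (Fin n) ℂ) (B B' : Matrix (Fin n) (Fin q) ℂ) (C C' : Matrix (Fin q) (Fin n) ℂ)
    (D D' : Matrix (Fin q) (Fin q) ℂ) :
    bk A B C D * bk A' B' C' D' = bk (A * A' + B * C') (A * B' + B * D') (C * A' + D * C') (C * B' + D * D') := by
  unfold bk
  rw [Matrix.submatrix_mul_equiv, Matrix.fromBlocks_multiply]

lemma bk_one : bk (1 : Matrix (Fin n) (Fin n) ℂ) 0 0 (1 : Matrix (Fin q) (Fin q) ℂ) = 1 := by
  unfold bk
  rw [fromBlocks_one, submatrix_one_equiv]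

lemma bk_transpose (A : Matrix (Fin n) (Fin n) ℂ) (B : Matrix (Fin n) (Fin q) ℂ) (C : Matrix (Fin q) (Fin n) ℂ)
    (D : Matrix (Fin q) (Fin q) ℂ) : (bk A B C D).transpose = bk A.transpose C.transpose B.transpose D.transpose := by
  unfold bk
  rw [transpose_submatrix, fromBlocks_transpose]

lemma bk_add (A A' : Matrix (Fin n) (Fin n) ℂ) (B B' : Matrix (Fin n) (Fin q) ℂ) (C C' : Matrix (Fin q) (Fin n) ℂ)
    (D D' : Matrix (Fin q) (Fin q) ℂ) : bk A B C D + bk A' B' C' D' = bk (A + A') (B + B') (C + C') (D + D') := by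
  unfold bk
  rw [← fromBlocks_add]
  rfl

lemma bk_smul (c : ℂ) (A : Matrix (Fin n) (Fin n) ℂ) (B : Matrix (Fin n) (Fin q) ℂ) (C : Matrix (Fin q) (Fin n) ℂ)
    (D : Matrix (Fin q) (Fin q) ℂ) : c • bk A B C D = bk (c • A) (c • B) (c • C) (c • D) := by
  unfold bk
  rw [← fromBlocks_smul]
  rfl

lemma vk_vecMul (x : Fin n → ℂ) (β : Fin q → ℂ) (A : Matrix (Fin n) (Fin n) ℂ) (B : Matrix (Fin n) (Fin q) ℂ)
    (C : Matrix (Fin q) (Fin n) ℂ) (D : Matrix (Fin q) (Fin q) ℂ) :
    vk x β ᵥ* bk A B C D = vk (x ᵥ* A + β ᵥ* C) (x ᵥ* B + β ᵥ* D) := by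
  unfold vk bk
  rw [submatrix_vecMul_equiv]
  have h1 : (Sum.elim x β ∘ ⇑finSumFinEquiv.symm) ∘ ⇑(finSumFinEquiv (m := n) (n := q)).symm.symm = Sum.elim x β := by
    funext i
    simp
  rw [h1, vecMul_fromBlocks]
  rfl

lemma vk_dot (x x' : Fin n → ℂ) (β β' : Fin q → ℂ) : vk x β ⬝ᵥ vk x' β' = x ⬝ᵥ x' + β ⬝ᵥ β' := by
  unfold vk dotProduct
  rw [Fin.sum_univ_add]
  simp

lemma vk_vecMulVec (x x' : Fin n → ℂ) (β β' : Fin q → ℂ) : vecMulVec (vk x β) (vk x' β') =
    bk (vecMulVec x x') (vecMulVec x β') (vecMulVec β x') (vecMulVec β β') := by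
  ext i j
  unfold vk bk
  rw [vecMulVec_apply, submatrix_apply]
  simp only [Function.comp]
  rcases finSumFinEquiv.symm i with i | i <;> rcases finSumFinEquiv.symm j with j | j <;> rfl

/-- the degenerate form -/
def Kd (q : ℕ) (K : Matrix (Fin n) (Fin n) ℂ) : Matrix (Fin (n + q)) (Fin (n + q)) ℂ := bk K 0 0 0

lemma om_Kd (K : Matrix (Fin n) (Fin n) ℂ) (x x' : Fin n → ℂ) (β β' : Fin q → ℂ) :
    om (Kd q K) (vk x β) (vk x' β') = om K x x' := by
  rw [om_eq, om_eq]
  unfold Kd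
  rw [vk_vecMul, vk_dot, vecMul_zero, vecMul_zero, vecMul_zero, add_zero, add_zero, zero_dotProduct, add_zero]

lemma vmz {a b : ℕ} (x : Fin a → ℂ) : vecMulVec x (0 : Fin b → ℂ) = 0 := by
  ext i j
  simp [vecMulVec_apply]

lemma tv_Kd (K : Matrix (Fin n) (Fin n) ℂ) (x : Fin n → ℂ) (β : Fin q → ℂ) (s : ℂ) :
    tv (Kd q K) (vk x β) s = bk (tv K x s) 0 (s • vecMulVec β (x ᵥ* K)) 1 := by
  unfold tv Kd
  rw [vk_vecMul, vecMul_zero, vecMul_zero, vecMul_zero, add_zero, add_zero, vk_vecMulVec, bk_smul, ← bk_one, bk_add]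
  congr 1
  · rw [vmz, smul_zero, add_zero]
  · rw [zero_add]
  · rw [vmz, smul_zero, add_zero]

lemma Kd_transpose {K : Matrix (Fin n) (Fin n) ℂ} : (Kd q K).transpose = Kd q K.transpose := by
  unfold Kd
  rw [bk_transpose, transpose_zero, transpose_zero, transpose_zero]

/-- the inclusion of the matrices -/
def lift (n q : ℕ) : Matrix (Fin n) (Fin n) ℂ →* Matrix (Fin (n + q)) (Fin (n + q)) ℂ where
  toFun h := bk h 0 0 1
  map_one' := bk_one
  map_mul' := by
    intro h h'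
    rw [bk_mul]
    simp

lemma add_tr {S : Submonoid (Matrix (Fin (n + q)) (Fin (n + q)) ℂ)} {a a' : Matrix (Fin q) (Fin n) ℂ}
    (h : bk 1 0 a 1 ∈ S) (h' : bk 1 0 a' 1 ∈ S) : bk 1 0 (a + a') 1 ∈ S := by
  have h1 := S.mul_mem h h'
  rw [bk_mul] at h1
  simpa using h1

lemma sum_tr {S : Submonoid (Matrix (Fin (n + q)) (Fin (n + q)) ℂ)} {ι : Type*} (T : Finset ι)
    {a : ι → Matrix (Fin q) (Fin n) ℂ} (h : ∀ i ∈ T, bk 1 0 (a i) 1 ∈ S) : bk 1 0 (∑ i ∈ T, a i) 1 ∈ S := by
  classical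
  induction T using Finset.induction_on with
  | empty =>
    rw [Finset.sum_empty, bk_one]
    exact S.one_mem
  | insert i T hi ih =>
    rw [Finset.sum_insert hi]
    exact add_tr (h i (Finset.mem_insert_self _ _)) (ih fun j hj => h j (Finset.mem_insert_of_mem hj))

/-- matrices are sums of matrices of rank one -/
lemma all_tr {S : Submonoid (Matrix (Fin (n + q)) (Fin (n + q)) ℂ)} {K : Matrix (Fin n) (Fin n) ℂ} (hdet : K.det ≠ 0)
    (h : ∀ (x : Fin n → ℂ) (β : Fin q → ℂ), bk 1 0 (vecMulVec β (x ᵥ* K)) 1 ∈ S) (a : Matrix (Fin q) (Fin n) ℂ) :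
    bk 1 0 a 1 ∈ S := by
  have h1 : a = ∑ i : Fin q, vecMulVec (Pi.single i 1) ((a i ᵥ* K⁻¹) ᵥ* K) := by
    ext j k
    rw [Matrix.sum_apply, Finset.sum_eq_single j]
    · rw [vecMul_vecMul, nonsing_inv_mul _ (Ne.isUnit hdet), vecMul_one, vecMulVec_apply, Pi.single_eq_same, one_mul]
    · intro b _ hb
      rw [vecMulVec_apply, Pi.single_eq_of_ne (Ne.symm hb), zero_mul]
    · intro h2
      exact absurd (Finset.mem_univ _) h2
  rw [h1]
  exact sum_tr _ fun i _ => h _ _

lemma fin_mem {S : Submonoid (Matrix (Fin (n + q)) (Fin (n + q)) ℂ)} {h : Matrix (Fin n) (Fin n) ℂ}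
    {a : Matrix (Fin q) (Fin n) ℂ} (h1 : lift n q h ∈ S) (h2 : bk 1 0 a 1 ∈ S) : bk h 0 a 1 ∈ S := by
  have h3 := S.mul_mem h1 h2
  have h4 : lift n q h * bk 1 0 a 1 = bk h 0 a 1 := by
    show bk h 0 0 1 * bk 1 0 a 1 = _
    rw [bk_mul]
    simp
  rwa [h4] at h3

/-- **symplectic type** -/
theorem gen_skew {K : Matrix (Fin n) (Fin n) ℂ} (hK : K.transpose = -K) (hdet : K.det ≠ 0)
    (S : Submonoid (Matrix (Fin (n + q)) (Fin (n + q)) ℂ)) (hS : ZC (S : Set (Matrix (Fin (n + q)) (Fin (n + q)) ℂ)))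
    {N : Matrix (Fin (n + q)) (Fin (n + q)) ℂ} (hN : N ^ (n + q) = 0) (hNK : N.transpose * Kd q K + Kd q K * N = 0)
    {ψ : Fin (n + q) → ℂ} (hcyc : (N ^ (n + q - 1)) *ᵥ ψ ≠ 0) (hψ : ∃ x, om (Kd q K) ψ x ≠ 0)
    (hE : ∀ c : ℂ, ∀ g ∈ S, E N c * g * E N (-c) ∈ S) {c₀ : ℂ} (hc₀ : c₀ ≠ 0) (hψS : tv (Kd q K) ψ c₀ ∈ S)
    (h : Matrix (Fin n) (Fin n) ℂ) (hh : h.transpose * K * h = K) (a : Matrix (Fin q) (Fin n) ℂ) : bk h 0 a 1 ∈ S := by
  have hKd : (Kd q K).transpose = -Kd q K := by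
    rw [Kd_transpose, hK]
    unfold Kd
    have := bk_smul (-1) K (0 : Matrix (Fin n) (Fin q) ℂ) 0 0
    simp only [smul_zero, neg_smul, one_smul] at this
    exact this.symm
  -- powers
  have hadd : ∀ s t, tv (Kd q K) ψ s * tv (Kd q K) ψ t = tv (Kd q K) ψ (s + t) := by
    intro s t
    unfold tv
    have h1 : vecMulVec ψ (ψ ᵥ* Kd q K) * vecMulVec ψ (ψ ᵥ* Kd q K) = 0 := tv_sq hKd ψ
    rw [mul_add, add_mul, add_mul, smul_mul_smul_comm, h1, add_smul]
    simp only [one_mul, mul_one, smul_zero, add_zero]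
    abel
  have hpow : ∀ m : ℕ, tv (Kd q K) ψ ((m : ℂ) * c₀) ∈ S := by
    intro m
    induction m with
    | zero =>
      have : tv (Kd q K) ψ (((0 : ℕ) : ℂ) * c₀) = 1 := by
        unfold tv
        simp
      rw [this]
      exact one_mem _
    | succ m ih =>
      have : ((m + 1 : ℕ) : ℂ) * c₀ = (m : ℂ) * c₀ + c₀ := by push_cast; ring
      rw [this, ← hadd]
      exact mul_mem ih hψS
  have hall : ∀ c, tv (Kd q K) ψ c ∈ S := by
    have hMe : ∀ c : ℂ, (1 + (Polynomial.X : Polynomial ℂ) • (vecMulVec ψ (ψ ᵥ* Kd q K)).map Polynomial.C :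
        Matrix (Fin (n + q)) (Fin (n + q)) (Polynomial ℂ)).map (Polynomial.eval c) = tv (Kd q K) ψ c := by
      intro c
      ext l k
      unfold tv
      simp only [Matrix.map_apply, Matrix.add_apply, Matrix.smul_apply, smul_eq_mul, Polynomial.eval_add,
        Polynomial.eval_mul, Polynomial.eval_X, Polynomial.eval_C]
      congr 1
      rw [Matrix.one_apply, Matrix.one_apply]
      split_ifs <;> simp
    intro c
    have h1 := hS (1 + (Polynomial.X : Polynomial ℂ) • (vecMulVec ψ (ψ ᵥ* Kd q K)).map Polynomial.C) 1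
      (Set.range fun m : ℕ => (m : ℂ) * c₀) (Set.infinite_range_of_injective fun a b hab => by
        have := mul_right_cancel₀ hc₀ hab
        exact_mod_cast this) (fun c hc => by
        obtain ⟨m, rfl⟩ := hc
        refine ⟨by simp, ?_⟩
        rw [Polynomial.eval_one, inv_one, one_smul, hMe]
        exact hpow m) c (by simp)
    rw [Polynomial.eval_one, inv_one, one_smul, hMe] at h1
    exact h1
  have hcl : ∀ M : Matrix (Fin (n + q)) (Fin (n + q)) (Polynomial ℂ), (∀ c : ℂ, c ≠ 0 → M.map (Polynomial.eval c) ∈ S) →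
      M.map (Polynomial.eval 0) ∈ S := by
    intro M hM
    have h1 := hS M 1 {0}ᶜ (Set.finite_singleton (0 : ℂ)).infinite_compl (fun c hc => by
      refine ⟨by simp, ?_⟩
      rw [Polynomial.eval_one, inv_one, one_smul]
      exact hM c hc) 0 (by simp)
    rw [Polynomial.eval_one, inv_one, one_smul] at h1
    exact h1
  have key := all_tv_d hKd hN hNK hcyc hψ S hE hall hcl
  refine fin_mem (gen_tv hK (S.comap (lift n q)) hdet (fun x s => ?_) h hh) (all_tr hdet (fun x β => ?_) a)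
  · have h1 := key (vk x 0) s
    rw [tv_Kd, zero_vecMulVec, smul_zero] at h1
    exact h1
  · have h1 := S.mul_mem (key (vk x β) 1) (key (vk x 0) (-1))
    rw [tv_Kd, tv_Kd, zero_vecMulVec, smul_zero, bk_mul, tv_mul_neg hK] at h1
    have h2 : (x ᵥ* K) ᵥ* tv K x (-1) = x ᵥ* K := by
      unfold tv
      rw [vecMul_add, vecMul_one, vecMul_smul, vecMul_vecMulVec, ← om_eq, om_self hK]
      simp
    have h3 : ((1 : ℂ) • vecMulVec β (x ᵥ* K)) * tv K x (-1) = vecMulVec β (x ᵥ* K) := by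
      rw [one_smul, vecMulVec_mul, h2]
    rw [h3] at h1
    simpa using h1

/-- **orthogonal type** -/
theorem gen_symm {K : Matrix (Fin n) (Fin n) ℂ} (hK : K.transpose = K) (hdet : K.det ≠ 0)
    (S : Submonoid (Matrix (Fin (n + q)) (Fin (n + q)) ℂ)) (hS : ZC (S : Set (Matrix (Fin (n + q)) (Fin (n + q)) ℂ)))
    {N : Matrix (Fin (n + q)) (Fin (n + q)) ℂ} (hN : N ^ (n + q) = 0) (hNK : N.transpose * Kd q K + Kd q K * N = 0)
    {ψ : Fin (n + q) → ℂ} (hcyc : (N ^ (n + q - 1)) *ᵥ ψ ≠ 0) (hψ : om (Kd q K) ψ ψ ≠ 0)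
    (hE : ∀ c : ℂ, ∀ g ∈ S, E N c * g * E N (-c) ∈ S) (hψS : rf (Kd q K) ψ ∈ S)
    (h : Matrix (Fin n) (Fin n) ℂ) (hh : h.transpose * K * h = K) (a : Matrix (Fin q) (Fin n) ℂ) : bk h 0 a 1 ∈ S := by
  have hKd : (Kd q K).transpose = Kd q K := by rw [Kd_transpose, hK]
  have key := all_rf hKd S hS hN hNK hcyc hψ hE hψS
  have hrf : ∀ (x : Fin n → ℂ) (β : Fin q → ℂ), rf (Kd q K) (vk x β) =
      bk (rf K x) 0 ((-2 / om K x x) • vecMulVec β (x ᵥ* K)) 1 := by
    intro x β
    unfold rf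
    rw [om_Kd, tv_Kd]
  have h1 : ∀ (x : Fin n → ℂ) (β : Fin q → ℂ), om K x x ≠ 0 → bk 1 0 (vecMulVec β (x ᵥ* K)) 1 ∈ S := by
    intro x β hx
    set β' : Fin q → ℂ := (om K x x / 2) • β with hβ'
    have h2 := S.mul_mem (key (vk x β') (by rwa [om_Kd])) (key (vk x 0) (by rwa [om_Kd]))
    rw [hrf, hrf, zero_vecMulVec, smul_zero, bk_mul, rf_sq hx] at h2
    have h3 : (x ᵥ* K) ᵥ* rf K x = -(x ᵥ* K) := by
      unfold rf tv
      rw [vecMul_add, vecMul_one, vecMul_smul, vecMul_vecMulVec, ← om_eq, smul_smul, div_mul_cancel₀ _ hx]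
      rw [neg_smul, two_smul]
      abel
    have h4 : ((-2 / om K x x) • vecMulVec β' (x ᵥ* K)) * rf K x = vecMulVec β (x ᵥ* K) := by
      rw [Matrix.smul_mul, vecMulVec_mul, h3, hβ', smul_vecMulVec, vecMulVec_neg, smul_neg, smul_neg, smul_smul,
        ← neg_smul]
      have : -(-2 / om K x x * (om K x x / 2)) = 1 := by field_simp
      rw [this, one_smul]
    rw [h4] at h2
    simpa using h2
  -- isotropic vectors
  have hψ' : ∃ u : Fin n → ℂ, om K u u ≠ 0 := by
    refine ⟨fun i => ψ (Fin.castAdd q i), ?_⟩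
    have h2 : ψ = vk (fun i => ψ (Fin.castAdd q i)) (fun i => ψ (Fin.natAdd n i)) := by
      funext i
      unfold vk
      refine Fin.addCases (fun i => ?_) (fun i => ?_) i
      · simp
      · simp
    rw [h2, om_Kd] at hψ
    exact hψ
  obtain ⟨u, hu⟩ := hψ'
  have h2 : ∀ (x : Fin n → ℂ) (β : Fin q → ℂ), bk 1 0 (vecMulVec β (x ᵥ* K)) 1 ∈ S := by
    intro x β
    by_cases hx : om K x x = 0
    · obtain ⟨c, hc0, hc⟩ : ∃ c : ℂ, c ≠ 0 ∧ om K (x + c • u) (x + c • u) ≠ 0 := by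
        have e : ∀ c : ℂ, om K (x + c • u) (x + c • u) = c * (2 * om K x u + c * om K u u) := by
          intro c
          rw [om_add_left, om_smul_left, om_add, om_add, om_smul, om_smul, hx, om_symm hK x u]
          ring
        by_cases h3 : 2 * om K x u + 1 * om K u u = 0
        · refine ⟨2, two_ne_zero, ?_⟩
          rw [e]
          refine mul_ne_zero two_ne_zero ?_
          have : 2 * om K x u + 2 * om K u u = om K u u := by linear_combination h3
          rw [this]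
          exact hu
        · refine ⟨1, one_ne_zero, ?_⟩
          rw [e]
          exact mul_ne_zero one_ne_zero h3
      have h3 := h1 (x + c • u) β hc
      have h4 := h1 (-(c • u)) β (by
        have e : -(c • u) = (-c) • u := by rw [neg_smul]
        rw [e, om_smul, om_smul_left]
        exact mul_ne_zero (neg_ne_zero.2 hc0) (mul_ne_zero (neg_ne_zero.2 hc0) hu))
      have h5 := add_tr h3 h4
      rw [← vecMulVec_add, ← add_vecMul, add_neg_cancel_right] at h5
      exact h5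
    · exact h1 x β hx
  refine fin_mem (gen_rf hK hdet (S.comap (lift n q)) (fun x hx => ?_) h hh) (all_tr hdet h2 a)
  have h3 := key (vk x 0) (by rwa [om_Kd])
  rw [hrf, zero_vecMulVec, smul_zero] at h3
  exact h3

end Run7.h893.NF
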