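import Pool.Agent.Run7.h893.NF.Mono
import Pool.Agent.Run7.h893.MX.Inst

/-!
# The families with their higher solutions: instances, arithmetic
-/

set_option autoImplicit false

open Filter Topology Matrix Pool.Agent.Y119.HY

namespace Run7.h893.NF

open Run7.h893.HO Run7.h893.MX
open Pool.Agent.Y119.HZ (Hp QD_QB SDc_C SDc_matmul)
open Pool.Agent.Y113 (SDc)

variable {n q : ℕ} {Q : Polynomial ℚ}

lemma cm_Nx_sq (hn : 2 ≤ n) : cm (Nx n q Q) * cm (Nx n q Q) = ((Q.coeff (n - 1) : ℚ) : ℂ) • cm (Nx n q Q) := by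
  ext i j
  rw [Matrix.mul_apply, Matrix.smul_apply, smul_eq_mul, Finset.sum_eq_single (⟨n - 1, by omega⟩ : Fin (n + q))]
  · rw [cm_apply, cm_apply, cm_apply]
    unfold Nx
    simp only [Matrix.of_apply]
    have h1 : n - 1 + 1 = n := by omega
    rw [if_pos h1]
    split_ifs
    · rfl
    · simp
  · intro k _ hk
    rw [cm_apply, cm_apply]
    unfold Nx
    simp only [Matrix.of_apply]
    rw [if_neg (fun h : (k : ℕ) + 1 = n => hk (Fin.ext (by simp only; omega)))]
    simp
  · intro h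
    exact absurd (Finset.mem_univ _) h

theorem FamY.ofD (hQ : QD n Q) (hF : Fam n Q (cm (Jm n Q)) (fun _ => cm (Jm n Q))) :
    FamY n Q (cm (Jm n Q)) (fun _ => cm (Jm n Q)) where
  toFamX := FamX.ofD hQ hF
  par := Or.inr (Jc_skew hQ)
  bz := ⟨0, by funext z; unfold Bz; rw [smul_zero, sub_zero]⟩
  part1 := by
    intro q
    have hn := hQ.two
    have hodd : Q.coeff (n - 1) = 0 := by
      refine hQ.sym _ ?_
      obtain ⟨m, hm⟩ := hQ.even
      exact ⟨m - 1, by omega⟩
    have hnil : (-cm (Nx n q Q)) ^ (n + q) = 0 := by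
      have h1 : (-cm (Nx n q Q)) ^ 2 = 0 := by
        rw [sq, neg_mul_neg, cm_Nx_sq hn, hodd, Rat.cast_zero, zero_smul]
      exact pow_eq_zero_of_le (by omega) h1
    obtain ⟨K, hK⟩ := exists_sol hnil (-cm (Am (n + q)))
    exact ⟨K, hK, fun i j => hK.growth hnil i j⟩

theorem FamY.ofO (hQ : QO n Q) (hF : Fam n Q (cm (J0m n)) (Bz (cm (J0m n)) (cm (J1m n Q)))) :
    FamY n Q (cm (J0m n)) (Bz (cm (J0m n)) (cm (J1m n Q))) where
  toFamX := FamX.ofO hQ hF
  par := Or.inl (comp_q hQ).symm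
  bz := ⟨_, rfl⟩
  part1 := by
    intro q
    have hn := hQ.two
    have hBB : (-cm (Nx n q Q)) * (-cm (Nx n q Q)) = (-(n : ℂ) / 2) • (-cm (Nx n q Q)) := by
      rw [neg_mul_neg, cm_Nx_sq hn, hQ.half, smul_neg, ← neg_smul]
      congr 1
      push_cast
      ring
    obtain ⟨K, hK⟩ := exists_sol' hQ.odd hBB (-cm (Am (n + q)))
    exact ⟨K, hK, fun i j => growth' hK hQ.odd hBB i j⟩

/-! ### arithmetic -/

variable {ι : Type} [Fintype ι]

lemma QG_QA (hn : Fintype.card ι = n) (h2 : 2 ≤ n) {α : ι → ℚ} (hα : ∀ i, ∀ l : ℕ, (l : ℚ) + α i ≠ 0) : QG n (QA α) where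
  two := h2
  monic := Polynomial.monic_prod_of_monic _ _ fun i _ => Polynomial.monic_X_add_C _
  deg := by
    unfold QA
    rw [Polynomial.natDegree_prod_of_monic _ _ fun i _ => Polynomial.monic_X_add_C _]
    simp only [Polynomial.natDegree_X_add_C]
    rw [Finset.sum_const, Finset.card_univ, hn, smul_eq_mul, mul_one]
  ne := by
    intro l
    unfold QA
    rw [Polynomial.eval_prod]
    refine Finset.prod_ne_zero_iff.2 fun i _ => ?_
    rw [Polynomial.eval_add, Polynomial.eval_X, Polynomial.eval_C]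
    exact hα i l

lemma aq_ext (k : ℕ) : aq (n + q) (Q * (Polynomial.X + Polynomial.C 1) ^ q) k = aq n Q k := by
  unfold aq
  refine Finset.prod_congr rfl fun l _ => ?_
  rw [map_mul, map_pow, map_add, Polynomial.aeval_X, Polynomial.aeval_C]
  have h1 : kx l + (algebraMap ℚ (PowerSeries ℚ)) 1 = kx (l + 1) := by
    unfold kx
    push_cast
    rw [map_add, map_one (PowerSeries.C (R := ℚ))]
    ring
  rw [h1, pow_add]
  have h2 := kx_succ_mul_inv l
  calc _ = Polynomial.aeval (kx l) Q * (kx (l + 1))⁻¹ ^ n * (kx (l + 1) * (kx (l + 1))⁻¹) ^ q := by ring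
    _ = _ := by rw [h2, one_pow, mul_one]

lemma QA_ext (α : ι → ℚ) : QA (Sum.elim α (fun _ : Fin q => (1 : ℚ))) = QA α * (Polynomial.X + Polynomial.C 1) ^ q := by
  unfold QA
  rw [Fintype.prod_sum_type]
  simp

/-- arithmetic of the higher solutions -/
theorem sdc_x (hn : Fintype.card ι = n) (h2 : 2 ≤ n) {α : ι → ℚ} (hα : ∀ i, ∀ l : ℕ, (l : ℚ) + α i ≠ 0) (i j : Fin (n + q)) :
    SDc (Gp (hx n q (QA α)) i j) := by
  by_cases hi : (i : ℕ) < n
  · have hc : Fintype.card (ι ⊕ Fin q) = n + q := by rw [Fintype.card_sum, Fintype.card_fin, hn]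
    have hα' : ∀ i, ∀ l : ℕ, (l : ℚ) + (Sum.elim α (fun _ : Fin q => (1 : ℚ))) i ≠ 0 := by
      rintro (i | i) l
      · exact hα i l
      · show (l : ℚ) + 1 ≠ 0
        positivity
    have h1 := sdc_hps_g hc hα' (QG_QA hc (by omega) hα') i j
    refine (congrArg SDc ?_).mp h1
    ext k
    rw [coeff_Gp, hx_lt k hi]
    unfold hps hq
    rw [PowerSeries.coeff_mk, QA_ext, aq_ext]
  · have h1 : Gp (hx n q (QA α)) i j = PowerSeries.C (if (i : ℕ) = j then (1 : ℚ) else 0) := by
      ext k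
      rw [coeff_Gp, hx_ge k hi, PowerSeries.coeff_C]
      by_cases hk : k = 0
      · subst hk
        simp
      · rw [if_neg hk, if_neg fun h => hk h.1]
    rw [h1]
    exact SDc_C _

/-- the inverse matrix -/
theorem wex_x {W : Matrix (Fin n) (Fin n) (PowerSeries ℚ)} (hW : Hp n Q * W = 1) (hWs : ∀ i j, SDc (W i j))
    (hs : ∀ i j, SDc (Gp (hx n q Q) i j)) : ∃ W' : Matrix (Fin (n + q)) (Fin (n + q)) (PowerSeries ℚ),
      Gp (hx n q Q) * W' = 1 ∧ ∀ i j, SDc (W' i j) := by
  set e := (finSumFinEquiv (m := n) (n := q)).symm with he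
  set h12 : Matrix (Fin n) (Fin q) (PowerSeries ℚ) := Matrix.of fun i j => Gp (hx n q Q) (Fin.castAdd q i) (Fin.natAdd n j) with h12d
  have h1 : Gp (hx n q Q) = (Matrix.fromBlocks (Hp n Q) h12 0 1).submatrix e e := by
    ext1 i j
    rw [Matrix.submatrix_apply, he]
    refine Fin.addCases (fun i => ?_) (fun i => ?_) i <;> refine Fin.addCases (fun j => ?_) (fun j => ?_) j
    · rw [finSumFinEquiv_symm_apply_castAdd, finSumFinEquiv_symm_apply_castAdd, Matrix.fromBlocks_apply₁₁]
      ext k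
      rw [coeff_Gp, hx_lt k (by simp)]
      unfold Hp hps
      rw [Matrix.of_apply, PowerSeries.coeff_mk]
      rfl
    · rw [finSumFinEquiv_symm_apply_castAdd, finSumFinEquiv_symm_apply_natAdd, Matrix.fromBlocks_apply₁₂]
      rfl
    · rw [finSumFinEquiv_symm_apply_castAdd, finSumFinEquiv_symm_apply_natAdd, Matrix.fromBlocks_apply₂₁]
      ext k
      rw [coeff_Gp, hx_ge k (by simp), if_neg]
      · simp
      · simp only [Fin.val_natAdd, Fin.val_castAdd]
        have := j.2
        omega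
    · rw [finSumFinEquiv_symm_apply_natAdd, finSumFinEquiv_symm_apply_natAdd, Matrix.fromBlocks_apply₂₂]
      ext k
      rw [coeff_Gp, hx_ge k (by simp), Matrix.one_apply]
      simp only [Fin.val_natAdd]
      by_cases hij : i = j
      · subst hij
        rw [if_pos rfl, PowerSeries.coeff_one]
        simp
      · rw [if_neg hij, if_neg, map_zero]
        intro h
        exact hij (Fin.ext (by omega))
  refine ⟨(Matrix.fromBlocks W (-(W * h12)) 0 1).submatrix e e, ?_, fun i j => ?_⟩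
  · rw [h1, he, Matrix.submatrix_mul_equiv, Matrix.fromBlocks_multiply, hW]
    have e1 : Hp n Q * -(W * h12) + h12 * (1 : Matrix (Fin q) (Fin q) (PowerSeries ℚ)) = 0 := by
      rw [Matrix.mul_neg, ← Matrix.mul_assoc, hW, Matrix.one_mul, Matrix.mul_one, neg_add_cancel]
    rw [e1]
    simp only [Matrix.mul_zero, add_zero, Matrix.zero_mul, Matrix.mul_one, zero_add]
    rw [Matrix.fromBlocks_one, Matrix.submatrix_one_equiv]
  · rw [Matrix.submatrix_apply, he]
    have h0 : SDc (0 : PowerSeries ℚ) := by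
      have := SDc_C 0
      rwa [map_zero] at this
    have hone : SDc (1 : PowerSeries ℚ) := by
      have := SDc_C 1
      rwa [map_one] at this
    have hneg : ∀ {f : PowerSeries ℚ}, SDc f → SDc (-f) := by
      intro f hf
      have h2 := (SDc_C (-1)).mul hf
      rwa [map_neg, map_one, neg_one_mul] at h2
    refine Fin.addCases (fun i => ?_) (fun i => ?_) i <;> refine Fin.addCases (fun j => ?_) (fun j => ?_) j
    · rw [finSumFinEquiv_symm_apply_castAdd, finSumFinEquiv_symm_apply_castAdd, Matrix.fromBlocks_apply₁₁]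
      exact hWs i j
    · rw [finSumFinEquiv_symm_apply_castAdd, finSumFinEquiv_symm_apply_natAdd, Matrix.fromBlocks_apply₁₂, Matrix.neg_apply,
        Matrix.mul_apply]
      exact hneg (Pool.Agent.Y119.HZ.SDc.sum' _ fun l _ => (hWs i l).mul (hs _ _))
    · rw [finSumFinEquiv_symm_apply_castAdd, finSumFinEquiv_symm_apply_natAdd, Matrix.fromBlocks_apply₂₁]
      exact h0
    · rw [finSumFinEquiv_symm_apply_natAdd, finSumFinEquiv_symm_apply_natAdd, Matrix.fromBlocks_apply₂₂, Matrix.one_apply]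
      split_ifs
      · exact hone
      · exact h0

/-- families with their higher solutions: the arithmetic conditions -/
structure FamW (n q : ℕ) (Q : Polynomial ℚ) (J0 : Matrix (Fin n) (Fin n) ℂ) (B : ℂ → Matrix (Fin n) (Fin n) ℂ) : Prop
    extends FamY n Q J0 B where
  xsd : ∀ i j, SDc (Gp (hx n q Q) i j)

/-- odd order -/
theorem famW_odd {m : ℕ} (hm : 1 ≤ m) {β : Fin m → ℚ} (hβ : ∀ j, ∀ a : ℤ, β j ≠ a + 1 / 2) (q : ℕ) :
    FamW (2 * m + 1) q (QP β) (cm (J0m (2 * m + 1))) (Bz (cm (J0m (2 * m + 1))) (cm (J1m (2 * m + 1) (QP β)))) where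
  toFamY := FamY.ofO (QO_QP hm hβ) (fam_odd hm hβ)
  xsd := fun i j => by
    rw [QP_eq]
    exact sdc_x card_exps (by omega) (exps_ne hβ) i j

/-- the exponents for even order -/
def expe {m : ℕ} (β : Fin m → ℚ) : Fin m ⊕ Fin m → ℚ := Sum.elim β (fun j => -β j)

lemma QB_eq {m : ℕ} (β : Fin m → ℚ) : QB β = QA (expe β) := by
  unfold QB QA expe
  rw [Fintype.prod_sum_type, ← Finset.prod_mul_distrib]
  refine Finset.prod_congr rfl fun j _ => ?_
  simp only [Sum.elim_inl, Sum.elim_inr, map_neg, map_pow]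
  ring

/-- even order -/
theorem famW_even {m : ℕ} (hm : 1 ≤ m) {β : Fin m → ℚ} (hβ : ∀ j, ∀ a : ℤ, β j ≠ a) (q : ℕ) :
    FamW (2 * m) q (QB β) (cm (Jm (2 * m) (QB β))) (fun _ => cm (Jm (2 * m) (QB β))) where
  toFamY := by
    have hβ' : ∀ j, ∀ l : ℕ, (l : ℚ) + β j ≠ 0 ∧ (l : ℚ) + -β j ≠ 0 := by
      intro j l
      constructor
      · intro h
        apply hβ j (-(l : ℤ))
        push_cast
        linear_combination h
      · intro h
        apply hβ j (l : ℤ)
        push_cast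
        linear_combination -h
    exact FamY.ofD (QD_QB hm hβ') (fam_even hm hβ)
  xsd := fun i j => by
    rw [QB_eq]
    refine sdc_x (by rw [Fintype.card_sum, Fintype.card_fin]; ring) (by omega) ?_ i j
    rintro (j | j) l
    · show (l : ℚ) + β j ≠ 0
      intro h
      apply hβ j (-(l : ℤ))
      push_cast
      linear_combination h
    · show (l : ℚ) + -β j ≠ 0
      intro h
      apply hβ j (l : ℤ)
      push_cast
      linear_combination -h

end Run7.h893.NF
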