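import Pool.Agent.Run7.h893.NF.Sol
import Pool.Agent.Run7.h893.MX.FamX

/-!
# The higher solutions of the Frobenius method near the point `1`
-/

set_option autoImplicit false

open Filter Topology Matrix Pool.Agent.Y119.HY

namespace Run7.h893.NF

open Run7.h893.HO Run7.h893.MX

variable {n q : ℕ} {Q : Polynomial ℚ}

lemma ee_an {f : ℂ → ℂ} {U : Set ℂ} (hf : AnalyticOnNhd ℂ f U) (i j : ℕ) : AnalyticOnNhd ℂ (fun z => ee (f z) i j) U := by
  unfold ee
  split_ifs
  · exact (hf.pow _).div analyticOnNhd_const fun _ _ => by exact_mod_cast (j - i).factorial_ne_zero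
  · exact analyticOnNhd_const

lemma ball_slit {z : ℂ} (hz : z ∈ Metric.ball (1 : ℂ) 1) : z ∈ Complex.slitPlane := by
  left
  rw [Metric.mem_ball, dist_comm, dist_eq_norm] at hz
  have h1 : (1 - z).re ≤ ‖1 - z‖ := Complex.re_le_norm _
  rw [Complex.sub_re, Complex.one_re] at h1
  linarith

lemma log_an : AnalyticOnNhd ℂ Complex.log (Metric.ball 1 1) := fun _ hz => analyticAt_id.clog (ball_slit hz)

/-- constant on the ball -/
lemma const_ball {F : ℂ → ℂ} (hF : AnalyticOnNhd ℂ F (Metric.ball 1 1)) {c : ℂ} (h : ∀ z ∈ Lens, F z = c) :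
    F 1 = c := by
  have hhalf : ((1 / 2 : ℝ) : ℂ) ∈ Lens := real_mem_Lens (by norm_num) (by norm_num)
  have h1 : F 1 - c = 0 := by
    refine (hF.sub analyticOnNhd_const).eqOn_zero_of_preconnected_of_eventuallyEq_zero (convex_ball _ _).isPreconnected
      (z₀ := ((1 / 2 : ℝ) : ℂ)) hhalf.2 ?_ (Metric.mem_ball_self one_pos)
    filter_upwards [isOpen_Lens.mem_nhds hhalf] with x hx
    simp only [Pi.sub_apply, Pi.zero_apply]
    rw [h x hx, sub_self]
  exact sub_eq_zero.1 h1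

/-- the initial values -/
noncomputable def ci (n q : ℕ) (Q : Polynomial ℚ) (j : Fin q) : Fin (n + q) → ℂ :=
  vk (fun i => if (i : ℕ) = 0 ∧ (j : ℕ) = 0 then -(1 / ((Q.coeff 0 : ℚ) : ℂ)) else 0) (Pi.single j 1)

lemma ci_c (j : Fin q) (i : Fin n) : ci n q Q j (Fin.castAdd q i) =
    if (i : ℕ) = 0 ∧ (j : ℕ) = 0 then -(1 / ((Q.coeff 0 : ℚ) : ℂ)) else 0 := by
  unfold ci vk
  simp

lemma ci_n (j i : Fin q) : ci n q Q j (Fin.natAdd n i) = if i = j then 1 else 0 := by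
  unfold ci vk
  simp [Pi.single_apply]

lemma Nx_ci (hQ : QG n Q) (j : Fin q) : cm (Nx n q Q) *ᵥ ci n q Q j = 0 := by
  have hn := hQ.two
  have h0 : ((Q.coeff 0 : ℚ) : ℂ) ≠ 0 := by
    have h1 := hQ.ne 0
    rw [Nat.cast_zero, ← Polynomial.coeff_zero_eq_eval_zero] at h1
    exact_mod_cast h1
  ext i
  rw [mv_apply, Fin.sum_univ_add]
  simp only [cm_apply]
  unfold Nx
  simp only [Matrix.of_apply, Fin.val_castAdd, Fin.val_natAdd, ci_c, ci_n]
  by_cases hi : (i : ℕ) + 1 = n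
  · simp only [hi, if_true]
    rw [Finset.sum_eq_single (⟨0, by omega⟩ : Fin n), Finset.sum_eq_single j]
    · simp only [true_and, if_true, mul_one]
      rw [Q_coeff hQ (n + j) (by omega)]
      by_cases hj : (j : ℕ) = 0
      · rw [if_pos hj, if_pos (by omega)]
        field_simp
        simp
      · rw [if_neg hj, if_neg (by omega)]
        simp
    · intro b _ hb
      rw [if_neg hb, mul_zero]
    · intro h
      exact absurd (Finset.mem_univ _) h
    · intro b _ hb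
      rw [if_neg, mul_zero]
      intro h
      exact hb (Fin.ext h.1)
    · intro h
      exact absurd (Finset.mem_univ _) h
  · simp only [hi, if_false]
    simp

lemma Am_low (d : Fin (n + q) → ℂ) (hd : ∀ i, d (Fin.natAdd n i) = 0) (i : Fin n) :
    (cm (Am (n + q)) *ᵥ d) (Fin.castAdd q i) = (cm (Am n) *ᵥ fun k => d (Fin.castAdd q k)) i := by
  rw [mv_apply, mv_apply, Fin.sum_univ_add]
  simp only [hd, mul_zero, Finset.sum_const_zero, add_zero]
  rfl

lemma Nx_low (d : Fin (n + q) → ℂ) (hd : ∀ i, d (Fin.natAdd n i) = 0) (i : Fin n) :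
    (cm (Nx n q Q) *ᵥ d) (Fin.castAdd q i) = (cm (Bm n Q) *ᵥ fun k => d (Fin.castAdd q k)) i := by
  rw [mv_apply, mv_apply, Fin.sum_univ_add]
  simp only [hd, mul_zero, Finset.sum_const_zero, add_zero]
  rfl

lemma Am_high (d : Fin (n + q) → ℂ) (i : Fin q) :
    (cm (Am (n + q)) *ᵥ d) (Fin.natAdd n i) = (cm (Am q) *ᵥ fun k => d (Fin.natAdd n k)) i := by
  rw [mv_apply, mv_apply, Fin.sum_univ_add]
  have h1 : ∑ k : Fin n, cm (Am (n + q)) (Fin.natAdd n i) (Fin.castAdd q k) * d (Fin.castAdd q k) = 0 := by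
    refine Finset.sum_eq_zero fun k _ => ?_
    rw [cm_apply]
    unfold Am
    rw [Matrix.of_apply, if_neg, Rat.cast_zero, zero_mul]
    simp only [Fin.val_castAdd, Fin.val_natAdd]
    have := k.2
    omega
  rw [h1, zero_add]
  refine Finset.sum_congr rfl fun k _ => ?_
  congr 1
  rw [cm_apply, cm_apply]
  unfold Am
  rw [Matrix.of_apply, Matrix.of_apply]
  simp only [Fin.val_natAdd]
  by_cases h : (k : ℕ) = i + 1
  · rw [if_pos h, if_pos (by omega)]
  · rw [if_neg h, if_neg (by omega)]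

lemma Nx_high (d : Fin (n + q) → ℂ) (i : Fin q) : (cm (Nx n q Q) *ᵥ d) (Fin.natAdd n i) = 0 := by
  rw [mv_apply]
  refine Finset.sum_eq_zero fun k _ => ?_
  rw [cm_apply]
  unfold Nx
  rw [Matrix.of_apply, if_neg, Rat.cast_zero, zero_mul]
  simp only [Fin.val_natAdd]
  omega

/-- solutions which are holomorphic at `1` -/
lemma part_ode {m : ℕ} {A B : Matrix (Fin m) (Fin m) ℂ} {K : ℕ → Matrix (Fin m) (Fin m) ℂ} (hK : Sol (-B) (-A) K)
    (hg : ∀ i j, PG fun k => K k i j) {c : Fin m → ℂ} (hBc : B *ᵥ c = 0) {z : ℂ} (hz : z ∈ Lens) (i : Fin m) :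
    HasDerivAt (fun z => (Hf K (1 - z) *ᵥ c) i)
      ((1 / z) * (A *ᵥ (Hf K (1 - z) *ᵥ c)) i + (1 / (1 - z)) * (B *ᵥ (Hf K (1 - z) *ᵥ c)) i) z := by
  have hz' := symm_Lens hz
  have h1 := Hf_ode' hK hg (mem_Lens.1 hz').1 (Lens_ne hz').1
  have h2 : HasDerivAt (fun w : ℂ => 1 - w) (-1) z := by
    simpa using (hasDerivAt_id z).const_sub 1
  have h3 := h1.comp h2
  have h4 : HasDerivAt (fun w => ∑ j, Hf K (1 - w) i j * c j) (∑ j, ((-1 : ℂ) • ((1 / (1 - z)) • (-B * Hf K (1 - z) -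
      Hf K (1 - z) * -B) + (1 / (1 - (1 - z))) • (-A * Hf K (1 - z)))) i j * c j) z :=
    HasDerivAt.fun_sum fun j _ => (h3 i j).mul_const _
  refine h4.congr_deriv ?_
  have h5 : ∑ j, ((-1 : ℂ) • ((1 / (1 - z)) • (-B * Hf K (1 - z) -
      Hf K (1 - z) * -B) + (1 / (1 - (1 - z))) • (-A * Hf K (1 - z)))) i j * c j =
      (((-1 : ℂ) • ((1 / (1 - z)) • (-B * Hf K (1 - z) -
      Hf K (1 - z) * -B) + (1 / (1 - (1 - z))) • (-A * Hf K (1 - z)))) *ᵥ c) i := rfl
  rw [h5, smul_mulVec, add_mulVec, smul_mulVec, smul_mulVec, sub_mulVec, ← mulVec_mulVec, ← mulVec_mulVec, ← mulVec_mulVec,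
    neg_mulVec, neg_mulVec, neg_mulVec, hBc, neg_zero, mulVec_zero, sub_zero, sub_sub_cancel]
  simp only [Pi.smul_apply, Pi.add_apply, Pi.neg_apply, smul_eq_mul]
  ring

/-- the lower block -/
lemma part_high (hQ : QG n Q) {K : ℕ → Matrix (Fin (n + q)) (Fin (n + q)) ℂ}
    (hK : Sol (-cm (Nx n q Q)) (-cm (Am (n + q))) K) (hg : ∀ i j, PG fun k => K k i j) (j i : Fin q) {z : ℂ}
    (hz : z ∈ Lens) : (Hf K (1 - z) *ᵥ ci n q Q j) (Fin.natAdd n i) = ee (Complex.log z) i j := by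
  set N : Matrix (Fin q) (Fin q) ℂ := cm (Am q) with hN
  have hNn : N ^ q = 0 := Ac_nil
  set W : ℂ → Matrix (Fin q) (Fin q) ℂ := fun z => Matrix.of fun i _ => (Hf K (1 - z) *ᵥ ci n q Q j) (Fin.natAdd n i) with hW
  have hWd : ∀ z ∈ Lens, HD W ((1 / z) • (N * W z)) z := by
    intro z hz i l
    have h1 := part_ode hK hg (Nx_ci hQ j) hz (Fin.natAdd n i)
    refine h1.congr_deriv ?_
    rw [Am_high, Nx_high, mul_zero, add_zero, Matrix.smul_apply, Matrix.mul_apply, smul_eq_mul]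
    rfl
  have hEd : ∀ z ∈ Lens, HD (fun z => E N (-Complex.log z)) ((-(1 / z)) • (N * E N (-Complex.log z))) z := by
    intro z hz
    have h2 : HasDerivAt (fun w : ℂ => -Complex.log w) (-(1 / z)) z := by
      have := (Complex.hasDerivAt_log (slit_Lens hz)).neg
      rw [one_div]
      exact this
    exact HD.comp (f := fun w : ℂ => -Complex.log w) (E_HD hNn (-Complex.log z)) h2
  have hF : ∀ z ∈ Lens, HD (fun z => E N (-Complex.log z) * W z) 0 z := by
    intro z hz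
    refine ((hEd z hz).mul (hWd z hz)).congr ?_
    have hcomm : N * E N (-Complex.log z) = E N (-Complex.log z) * N := Pool.Agent.Y119.HZ.E_comm N _
    rw [hcomm, smul_mul_assoc, mul_smul_comm, Matrix.mul_assoc, neg_smul, neg_add_cancel]
  have hhalf : ((1 / 2 : ℝ) : ℂ) ∈ Lens := real_mem_Lens (by norm_num) (by norm_num)
  have hconst : ∀ z ∈ Lens, E N (-Complex.log z) * W z = E N (-Complex.log ((1 / 2 : ℝ) : ℂ)) * W ((1 / 2 : ℝ) : ℂ) :=
    fun z hz => const_Lens (F := fun z => E N (-Complex.log z) * W z) hF hz hhalf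
  have hW1 : W 1 = Matrix.of fun i _ => if i = j then (1 : ℂ) else 0 := by
    ext i l
    rw [hW]
    simp only [Matrix.of_apply]
    rw [sub_self, Hf_zero hK, one_mulVec, ci_n]
  have han : ∀ i l, AnalyticOnNhd ℂ (fun z => (E N (-Complex.log z) * W z) i l) (Metric.ball 1 1) := by
    intro i l
    simp only [Matrix.mul_apply, hN, E_Am]
    refine Finset.analyticOnNhd_fun_sum _ fun k _ => (ee_an log_an.neg _ _).mul ?_
    exact one_sub_an hg _ _
  have h1 : E N (-Complex.log ((1 / 2 : ℝ) : ℂ)) * W ((1 / 2 : ℝ) : ℂ) = Matrix.of fun i _ => if i = j then (1 : ℂ) else 0 := by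
    ext i l
    have h2 := const_ball (han i l) (fun z hz => congrFun (congrFun (hconst z hz) i) l)
    rw [← h2, Complex.log_one, neg_zero, E_zero hNn, one_mul, hW1]
  have h2 := hconst z hz
  rw [h1] at h2
  have h3 := congrArg (fun X => E N (Complex.log z) * X) h2
  simp only [← Matrix.mul_assoc] at h3
  rw [E_mul_neg hNn, one_mul] at h3
  have h4 := congrFun (congrFun h3 i) j
  have h5 : W z i j = (Hf K (1 - z) *ᵥ ci n q Q j) (Fin.natAdd n i) := rfl
  rw [← h5, h4, Matrix.mul_apply, Finset.sum_eq_single j]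
  · rw [Matrix.of_apply, if_pos rfl, mul_one, hN, E_Am]
  · intro b _ hb
    rw [Matrix.of_apply, if_neg hb, mul_zero]
  · intro h
    exact absurd (Finset.mem_univ _) h

/-- **the decomposition of the higher solutions** -/
theorem inh_x (hQ : QG n Q) {K : ℕ → Matrix (Fin (n + q)) (Fin (n + q)) ℂ}
    (hK : Sol (-cm (Nx n q Q)) (-cm (Am (n + q))) K) (hg : ∀ i j, PG fun k => K k i j)
    (hconst : ∀ X : ℂ → Matrix (Fin n) (Fin n) ℂ, (∀ z ∈ Lens, HD X (Gm (cm (Am n)) (cm (Bm n Q)) z * X z) z) →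
      ∃ c, ∀ z ∈ Lens, X z = Yf (cm (Am n)) (Hc n Q) z * c) :
    ∃ (U : Fin q → Fin n → ℂ → ℂ) (b : Matrix (Fin n) (Fin q) ℂ), (∀ j i, AnalyticOnNhd ℂ (U j i) (Metric.ball 1 1)) ∧
      ∀ z ∈ Lens, ∀ i j, Yx n q Q z (Fin.castAdd q i) (Fin.natAdd n j) = U j i z + (Yf (cm (Am n)) (Hc n Q) z * b) i j := by
  have hn := hQ.two
  have hex : ∀ j : Fin q, ∃ b : Fin n → ℂ, ∀ z ∈ Lens, ∀ i, Yx n q Q z (Fin.castAdd q i) (Fin.natAdd n j) =
      (Hf K (1 - z) *ᵥ ci n q Q j) (Fin.castAdd q i) + (Yf (cm (Am n)) (Hc n Q) z *ᵥ b) i := by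
    intro j
    set d : ℂ → Fin (n + q) → ℂ := fun z i => Yx n q Q z i (Fin.natAdd n j) - (Hf K (1 - z) *ᵥ ci n q Q j) i with hd
    have hd0 : ∀ z ∈ Lens, ∀ i, d z (Fin.natAdd n i) = 0 := by
      intro z hz i
      rw [hd]
      simp only
      rw [part_high hQ hK hg j i hz, Yx_ge]
      have : ((Fin.natAdd n j : Fin (n + q)) : ℕ) = n + j := rfl
      rw [this, ee_add, sub_self]
    set X : ℂ → Matrix (Fin n) (Fin n) ℂ := fun z => Matrix.of fun i _ => d z (Fin.castAdd q i) with hX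
    have hXd : ∀ z ∈ Lens, HD X (Gm (cm (Am n)) (cm (Bm n Q)) z * X z) z := by
      intro z hz i l
      have h1 := Yf_ode (sy_x (q := q) hQ).sol Ac_nil (mem_Lens.1 hz).1 (slit_Lens hz) (Fin.castAdd q i) (Fin.natAdd n j)
      have h2 := part_ode hK hg (Nx_ci hQ j) hz (Fin.castAdd q i)
      refine (h1.sub h2).congr_deriv ?_
      have h3 : (Gm (cm (Am (n + q))) (cm (Nx n q Q)) z * Yf (cm (Am (n + q))) (Gc (hx n q Q)) z) (Fin.castAdd q i) (Fin.natAdd n j) =
          (1 / z) * (cm (Am (n + q)) *ᵥ fun k => Yx n q Q z k (Fin.natAdd n j)) (Fin.castAdd q i) +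
          (1 / (1 - z)) * (cm (Nx n q Q) *ᵥ fun k => Yx n q Q z k (Fin.natAdd n j)) (Fin.castAdd q i) := by
        unfold Gm
        rw [add_mul, smul_mul_assoc, smul_mul_assoc, Matrix.add_apply, Matrix.smul_apply, Matrix.smul_apply, smul_eq_mul,
          smul_eq_mul]
        rfl
      have h4 : (Gm (cm (Am n)) (cm (Bm n Q)) z * X z) i l =
          (1 / z) * (cm (Am n) *ᵥ fun k => d z (Fin.castAdd q k)) i +
          (1 / (1 - z)) * (cm (Bm n Q) *ᵥ fun k => d z (Fin.castAdd q k)) i := by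
        unfold Gm
        rw [add_mul, smul_mul_assoc, smul_mul_assoc, Matrix.add_apply, Matrix.smul_apply, Matrix.smul_apply, smul_eq_mul,
          smul_eq_mul]
        rfl
      rw [h3, h4, ← Am_low (d z) (hd0 z hz), ← Nx_low (d z) (hd0 z hz)]
      have h5 : d z = (fun k => Yx n q Q z k (Fin.natAdd n j)) - (Hf K (1 - z) *ᵥ ci n q Q j) := rfl
      rw [h5, mulVec_sub, mulVec_sub, Pi.sub_apply, Pi.sub_apply]
      ring
    obtain ⟨c, hc⟩ := hconst X hXd
    refine ⟨fun k => c k ⟨0, by omega⟩, fun z hz i => ?_⟩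
    have h1 := congrFun (congrFun (hc z hz) i) ⟨0, by omega⟩
    have h2 : (Yf (cm (Am n)) (Hc n Q) z * c) i ⟨0, by omega⟩ = (Yf (cm (Am n)) (Hc n Q) z *ᵥ fun k => c k ⟨0, by omega⟩) i := rfl
    rw [← h2, ← h1]
    show _ = (Hf K (1 - z) *ᵥ ci n q Q j) (Fin.castAdd q i) + (Yx n q Q z (Fin.castAdd q i) (Fin.natAdd n j) -
      (Hf K (1 - z) *ᵥ ci n q Q j) (Fin.castAdd q i))
    ring
  choose b hb using hex
  refine ⟨fun j i z => (Hf K (1 - z) *ᵥ ci n q Q j) (Fin.castAdd q i), Matrix.of fun k j => b j k,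
    fun j i => one_sub_an hg _ _, fun z hz i j => ?_⟩
  rw [hb j z hz i]
  rfl

end Run7.h893.NF
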