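import Pool.Agent.Run7.h893.NF.Loc

/-!
# The relations between the higher solutions are invariant under the semidirect product
-/

set_option autoImplicit false

open Filter Topology Matrix Pool.Agent.Y119.HY

namespace Run7.h893.NF

open Run7.h893.HO Run7.h893.MX

/-- continuation around `1` -/
lemma shift_Gal {m : ℕ} {Y Z : ℂ → Matrix (Fin m) (Fin m) ℂ} (han : ∀ i j, AnalyticOnNhd ℂ (fun t => Z t i j) HPl)
    (hreal : ∀ t : ℝ, 0 < t → Z t = Y (1 - Complex.exp (-2 * t))) {τ : ℂ} (hτ : Complex.exp (-2 * τ) = 1)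
    (hτ0 : τ.re = 0) {R : Matrix (Fin m) (Fin m) ℂ}
    (hshift : ∀ t : ℝ, 0 < t → Z (t + τ) = Y (1 - Complex.exp (-2 * t)) * R) : R ∈ Gal Y := by
  intro P hP x hx hx1
  set F : ℂ → ℂ := fun t => ev P (1 - Complex.exp (-2 * t)) (Complex.log (1 - Complex.exp (-2 * t))) (Z t) with hF
  have hFan : AnalyticOnNhd ℂ F HPl := by
    have hpt : ∀ o : Vr m, AnalyticOnNhd ℂ (fun t => pt (1 - Complex.exp (-2 * t)) (Complex.log (1 - Complex.exp (-2 * t)))
        (Z t) o) HPl := by
      intro o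
      rcases o with _ | _ | x
      · exact fun t _ => analyticAt_const.sub ((analyticAt_const.mul analyticAt_id).cexp)
      · exact AnA_log
      · exact han x.1 x.2
    rw [hF]
    unfold ev
    clear hF hP
    induction P using MvPolynomial.induction_on with
    | C a => simpa using analyticOnNhd_const
    | add q r hq hr => simp only [map_add]; exact hq.add hr
    | mul_X q i hq => simp only [map_mul, MvPolynomial.eval_X]; exact hq.mul (hpt i)
  have hzero : ∀ t : ℝ, 0 < t → F t = 0 := by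
    intro t ht
    obtain ⟨-, h4⟩ := exp_Lens ht
    have h1 : 0 < 1 - Real.exp (-2 * t) := by
      have : Real.exp (-2 * t) < 1 := by rw [Real.exp_lt_one_iff]; linarith
      linarith
    have h2 : 1 - Real.exp (-2 * t) < 1 := by linarith [Real.exp_pos (-2 * t)]
    have h3 := hP (1 - Real.exp (-2 * t)) h1 h2
    rw [h4, ← hreal t ht] at h3
    exact h3
  set t : ℝ := -(1 / 2) * Real.log (1 - x) with ht
  have ht0 : 0 < t := by
    have : Real.log (1 - x) < 0 := Real.log_neg (by linarith) (by linarith)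
    rw [ht]
    linarith
  have htx : 1 - Complex.exp (-2 * (t : ℂ)) = x := by
    have h1 : -2 * t = Real.log (1 - x) := by rw [ht]; ring
    have h2 : Real.exp (-2 * t) = 1 - x := by rw [h1, Real.exp_log (by linarith)]
    have h3 : Complex.exp (-2 * (t : ℂ)) = ((Real.exp (-2 * t) : ℝ) : ℂ) := by push_cast; rfl
    rw [h3, h2]
    push_cast
    ring
  have h1 := zero_HPl hFan hzero (t := t + τ) (by
    show (0 : ℝ) < ((t : ℂ) + τ).re
    rw [Complex.add_re, hτ0, add_zero, Complex.ofReal_re]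
    exact ht0)
  have e3 : Complex.exp (-2 * ((t : ℂ) + τ)) = Complex.exp (-2 * (t : ℂ)) := by
    rw [mul_add, Complex.exp_add, hτ, mul_one]
  rw [hF] at h1
  simp only at h1
  rw [e3, hshift t ht0, htx] at h1
  exact h1

lemma tau1 : Complex.exp (-2 * (Complex.I * Real.pi)) = 1 := by
  have : -2 * (Complex.I * Real.pi) = -(2 * Real.pi * Complex.I) := by ring
  rw [this, Complex.exp_neg, Complex.exp_two_pi_mul_I, inv_one]

lemma tau2 : Complex.exp (-2 * -(Complex.I * Real.pi)) = 1 := by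
  have : -2 * -(Complex.I * Real.pi) = 2 * Real.pi * Complex.I := by ring
  rw [this, Complex.exp_two_pi_mul_I]

lemma bk_cc {n q : ℕ} (A : Matrix (Fin n) (Fin n) ℂ) (B : Matrix (Fin n) (Fin q) ℂ) (C : Matrix (Fin q) (Fin n) ℂ)
    (D : Matrix (Fin q) (Fin q) ℂ) (i j : Fin n) : bk A B C D (Fin.castAdd q i) (Fin.castAdd q j) = A i j := by
  unfold bk
  simp

lemma bk_cn {n q : ℕ} (A : Matrix (Fin n) (Fin n) ℂ) (B : Matrix (Fin n) (Fin q) ℂ) (C : Matrix (Fin q) (Fin n) ℂ)
    (D : Matrix (Fin q) (Fin q) ℂ) (i : Fin n) (j : Fin q) : bk A B C D (Fin.castAdd q i) (Fin.natAdd n j) = B i j := by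
  unfold bk
  simp

lemma bk_nc {n q : ℕ} (A : Matrix (Fin n) (Fin n) ℂ) (B : Matrix (Fin n) (Fin q) ℂ) (C : Matrix (Fin q) (Fin n) ℂ)
    (D : Matrix (Fin q) (Fin q) ℂ) (i : Fin q) (j : Fin n) : bk A B C D (Fin.natAdd n i) (Fin.castAdd q j) = C i j := by
  unfold bk
  simp

lemma bk_nn {n q : ℕ} (A : Matrix (Fin n) (Fin n) ℂ) (B : Matrix (Fin n) (Fin q) ℂ) (C : Matrix (Fin q) (Fin n) ℂ)
    (D : Matrix (Fin q) (Fin q) ℂ) (i j : Fin q) : bk A B C D (Fin.natAdd n i) (Fin.natAdd n j) = D i j := by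
  unfold bk
  simp

variable {n q : ℕ} {Q : Polynomial ℚ}

section mono

variable {J0 : Matrix (Fin n) (Fin n) ℂ} {v ψ : Fin n → ℂ} {R R' : Matrix (Fin n) (Fin n) ℂ}
  {Z : ℂ → Matrix (Fin n) (Fin n) ℂ} {U : Fin q → Fin n → ℂ → ℂ} {b : Matrix (Fin n) (Fin q) ℂ}

/-- the continued block matrix -/
noncomputable def Zb (q : ℕ) (Z : ℂ → Matrix (Fin n) (Fin n) ℂ) (U : Fin q → Fin n → ℂ → ℂ) (b : Matrix (Fin n) (Fin q) ℂ) (t : ℂ) :
    Matrix (Fin (n + q)) (Fin (n + q)) ℂ :=
  bk (Z t) ((Matrix.of fun i j => U j i (1 - Complex.exp (-2 * t))) + Z t * b) 0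
    (E (cm (Am q)) (Complex.log (1 - Complex.exp (-2 * t))))

theorem mono_x (hC : Core (cm (Am n)) (cm (Bm n Q)) J0 (Hc n Q) v ψ R R' Z)
    (hU : ∀ j i, AnalyticOnNhd ℂ (U j i) (Metric.ball 1 1))
    (hUb : ∀ z ∈ Lens, ∀ i j, Yx n q Q z (Fin.castAdd q i) (Fin.natAdd n j) = U j i z + (Yf (cm (Am n)) (Hc n Q) z * b) i j)
    {τ : ℂ} (hτ : Complex.exp (-2 * τ) = 1) (hτ0 : τ.re = 0) {M : Matrix (Fin n) (Fin n) ℂ}
    (hZ : ∀ t : ℝ, 0 < t → Z (t + τ) = Yf (cm (Am n)) (Hc n Q) (1 - Complex.exp (-2 * t)) * M) :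
    bk M ((M - 1) * b) 0 1 ∈ Gal (Yx n q Q) := by
  have hUa : ∀ j i, (fun t => U j i (1 - Complex.exp (-2 * t))) ∈ AnA HPl := by
    intro j i t ht
    have h3 : AnalyticAt ℂ (U j i) (1 - Complex.exp (-2 * t)) := hU j i _ (by
      rw [Metric.mem_ball, dist_comm, dist_eq_norm, sub_sub_cancel]
      exact exp_HPl ht)
    have h4 : AnalyticAt ℂ (fun t : ℂ => 1 - Complex.exp (-2 * t)) t :=
      analyticAt_const.sub ((analyticAt_const.mul analyticAt_id).cexp)
    exact AnalyticAt.fun_comp (g := U j i) (f := fun t : ℂ => 1 - Complex.exp (-2 * t)) h3 h4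
  have hYx : ∀ z ∈ Lens, Yx n q Q z = bk (Yf (cm (Am n)) (Hc n Q) z)
      ((Matrix.of fun i j => U j i z) + Yf (cm (Am n)) (Hc n Q) z * b) 0 (E (cm (Am q)) (Complex.log z)) := by
    intro z hz
    rw [Yx_eq]
    congr 1
    ext i j
    rw [Matrix.of_apply, hUb z hz]
    rfl
  refine shift_Gal (Z := Zb q Z U b) (fun i j => ?_) (fun t ht => ?_) hτ hτ0 fun t ht => ?_
  · unfold Zb
    refine Fin.addCases (fun i => ?_) (fun i => ?_) i <;> refine Fin.addCases (fun j => ?_) (fun j => ?_) j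
    · simp only [bk_cc]
      exact hC.an i j
    · simp only [bk_cn, Matrix.add_apply, Matrix.of_apply, Matrix.mul_apply]
      exact (AnA HPl).add_mem (hUa j i) (sum_mem' _ _ fun k _ => (AnA HPl).mul_mem (hC.an i k) (const_mem _ _))
    · simp only [bk_nc, Matrix.zero_apply]
      exact analyticOnNhd_const
    · simp only [bk_nn]
      exact E_mem (AnA HPl) (f := fun t => Complex.log (1 - Complex.exp (-2 * t))) AnA_log _ _ _
  · obtain ⟨h1, -⟩ := exp_Lens ht
    rw [hYx _ h1]
    unfold Zb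
    rw [hC.real t ht]
  · obtain ⟨h1, -⟩ := exp_Lens ht
    have e3 : Complex.exp (-2 * ((t : ℂ) + τ)) = Complex.exp (-2 * (t : ℂ)) := by
      rw [mul_add, Complex.exp_add, hτ, mul_one]
    rw [hYx _ h1, bk_mul]
    unfold Zb
    rw [hZ t ht, e3]
    congr 1
    · simp
    · rw [Matrix.sub_mul, Matrix.one_mul, Matrix.mul_sub, Matrix.mul_one, Matrix.mul_assoc]
      abel
    · simp
    · simp

end mono

/-- families with the structure of the singular points -/
structure FamY (n : ℕ) (Q : Polynomial ℚ) (J0 : Matrix (Fin n) (Fin n) ℂ) (B : ℂ → Matrix (Fin n) (Fin n) ℂ) : Prop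
    extends FamX n Q J0 B where
  par : J0.transpose = J0 ∨ J0.transpose = -J0
  bz : ∃ J1, B = Bz J0 J1
  part1 : ∀ q : ℕ, ∃ K : ℕ → Matrix (Fin (n + q)) (Fin (n + q)) ℂ,
    Sol (-cm (Nx n q Q)) (-cm (Am (n + q))) K ∧ ∀ i j, PG fun k => K k i j

variable {J0 : Matrix (Fin n) (Fin n) ℂ} {B : ℂ → Matrix (Fin n) (Fin n) ℂ}

lemma E_transpose {m : ℕ} (N : Matrix (Fin m) (Fin m) ℂ) (s : ℂ) : (E N s).transpose = E N.transpose s := by
  unfold E
  rw [transpose_sum]
  refine Finset.sum_congr rfl fun i _ => ?_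
  rw [transpose_smul, transpose_pow]

/-- the transposed matrices -/
def TG {m : ℕ} (Y : ℂ → Matrix (Fin m) (Fin m) ℂ) : Submonoid (Matrix (Fin m) (Fin m) ℂ) where
  carrier := {h | h.transpose ∈ Gal Y}
  mul_mem' := by
    intro g h hg hh
    show (g * h).transpose ∈ Gal Y
    rw [transpose_mul]
    exact (Gal Y).mul_mem hh hg
  one_mem' := by
    show (1 : Matrix (Fin m) (Fin m) ℂ).transpose ∈ Gal Y
    rw [transpose_one]
    exact (Gal Y).one_mem

lemma mem_TG {m : ℕ} {Y : ℂ → Matrix (Fin m) (Fin m) ℂ} {h : Matrix (Fin m) (Fin m) ℂ} : h ∈ TG Y ↔ h.transpose ∈ Gal Y := Iff.rfl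

lemma TG_ZC {m : ℕ} (Y : ℂ → Matrix (Fin m) (Fin m) ℂ) : ZC (TG Y : Set (Matrix (Fin m) (Fin m) ℂ)) := by
  intro M d T hT h c hc
  have e : ∀ c, ((d.eval c)⁻¹ • M.map (Polynomial.eval c)).transpose = (d.eval c)⁻¹ • M.transpose.map (Polynomial.eval c) := by
    intro c
    rw [transpose_smul]
    rfl
  have h1 := Gal_ZC Y M.transpose d T hT (fun c hc => ⟨(h c hc).1, by
    have h2 := (h c hc).2
    rw [SetLike.mem_coe, mem_TG, e] at h2
    exact h2⟩) c hc
  rw [SetLike.mem_coe, mem_TG, e]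
  exact h1

/-- a relation between the vectors of a rank one isometry -/
lemma rank_one {m : ℕ} {J : Matrix (Fin m) (Fin m) ℂ} {v ψ : Fin m → ℂ}
    (hR : (1 + vecMulVec v ψ).transpose * J * (1 + vecMulVec v ψ) = J) {e : Fin m → ℂ} (he : ψ ⬝ᵥ e ≠ 0) :
    ∃ c : ℂ, v ᵥ* J = c • ψ := by
  have hx : ∀ x : Fin m → ℂ, (1 + vecMulVec v ψ) *ᵥ x = x + (ψ ⬝ᵥ x) • v := by
    intro x
    rw [add_mulVec, one_mulVec, vecMulVec_mulVec]
    ext i
    simp only [Pi.add_apply, Pi.smul_apply, MulOpposite.smul_eq_mul_unop, MulOpposite.unop_op, smul_eq_mul]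
    ring
  refine ⟨-(om J e v / (ψ ⬝ᵥ e) + om J v v), ?_⟩
  funext j
  have h1 := om_isom hR e (Pi.single j 1)
  rw [hx, hx, om_add, om_add_left, om_smul, om_add_left, om_smul_left, om_smul_left] at h1
  have h2 : om J v (Pi.single j 1) = (v ᵥ* J) j := by
    rw [om_eq, dotProduct_single, mul_one]
  have h3 : ψ ⬝ᵥ (Pi.single j 1) = ψ j := by rw [dotProduct_single, mul_one]
  rw [h2, h3] at h1
  rw [Pi.smul_apply, smul_eq_mul]
  field_simp
  linear_combination h1

/-- **All relations between the higher solutions are invariant under the semidirect product.** -/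
theorem gal_all (hF : FamY n Q J0 B) {g : Matrix (Fin n) (Fin n) ℂ} (hg : g.transpose * J0 * g = J0)
    (a : Matrix (Fin n) (Fin q) ℂ) : bk g a 0 1 ∈ Gal (Yx n q Q) := by
  have hn := hF.g.two
  obtain ⟨v, ψ, R, R', Z, hC⟩ := hF.core
  obtain ⟨K', hK', hKg'⟩ := hF.part1 q
  obtain ⟨U, b, hU, hUb⟩ := inh_x hF.g hK' hKg' hC.const
  obtain ⟨J1, hJ1⟩ := hF.bz
  have hdet := hF.det
  have hu : IsUnit J0.det := Ne.isUnit hdet
  -- the vector `e`
  have hψe : ψ ⬝ᵥ ec n ≠ 0 := by
    intro h0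
    obtain ⟨f, hf, hfz⟩ := hC.ker (ec n) h0 ⟨0, by omega⟩
    refine sing_g hF.g f hf fun z hz => ?_
    have h1 := hfz z hz
    unfold Yf at h1
    rw [← mulVec_mulVec, E_fix (Ac_ec n)] at h1
    exact h1
  have hψ0 : ψ ⟨0, by omega⟩ ≠ 0 := by
    intro h0
    apply hψe
    unfold dotProduct ec
    rw [Finset.sum_eq_single (⟨0, by omega⟩ : Fin n)]
    · rw [h0, zero_mul]
    · intro k _ hk
      rw [if_neg, mul_zero]
      intro h
      exact hk (Fin.ext h)
    · intro h
      exact absurd (Finset.mem_univ _) h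
  have hv0 : v ≠ 0 := by
    rintro rfl
    apply hC.cyc
    rw [mulVec_zero]
  -- the isometry
  have hform : ∀ x : ℝ, 0 < x → x < 1 → (Yf (cm (Am n)) (Hc n Q) x).transpose * Bz J0 J1 x * Yf (cm (Am n)) (Hc n Q) x = J0 := by
    intro x hx hx1
    rw [← hJ1]
    exact hF.form x hx hx1
  have hRG : R ∈ Gal (Yf (cm (Am n)) (Hc n Q)) := shift_Gal hC.an hC.real tau1 (by simp) hC.shift
  have hRJ := Gal_form hform hRG
  rw [hC.rank] at hRJ
  obtain ⟨c, hc⟩ := rank_one hRJ hψe
  have hvc : v = c • (ψ ᵥ* J0⁻¹) := by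
    rw [← smul_vecMul, ← hc, vecMul_vecMul, mul_nonsing_inv _ hu, vecMul_one]
  have hc0 : c ≠ 0 := by
    rintro rfl
    rw [zero_smul] at hvc
    exact hv0 hvc
  set K : Matrix (Fin n) (Fin n) ℂ := J0⁻¹ with hK
  have hKdet : K.det ≠ 0 := by
    rw [hK, det_nonsing_inv]
    exact hu.ringInverse.ne_zero
  -- the matrices
  set N : Matrix (Fin (n + q)) (Fin (n + q)) ℂ := (cm (Am (n + q))).transpose with hN
  have hNn : N ^ (n + q) = 0 := by rw [hN, ← transpose_pow, Ac_nil, transpose_zero]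
  have hAK : cm (Am n) * K + K * (cm (Am n)).transpose = 0 := by
    have h1 := hF.zero
    have h2 : K * ((cm (Am n)).transpose * J0 + J0 * cm (Am n)) * K = 0 := by rw [h1, mul_zero, zero_mul]
    rw [mul_add, add_mul] at h2
    have e1 : K * ((cm (Am n)).transpose * J0) * K = K * (cm (Am n)).transpose := by
      rw [← Matrix.mul_assoc, Matrix.mul_assoc, hK, mul_nonsing_inv _ hu, mul_one]
    have e2 : K * (J0 * cm (Am n)) * K = cm (Am n) * K := by
      rw [← Matrix.mul_assoc, hK, nonsing_inv_mul _ hu, one_mul]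
    rw [e1, e2] at h2
    rw [add_comm]
    exact h2
  have hAm : cm (Am (n + q)) = bk (cm (Am n)) (Matrix.of fun i j => cm (Am (n + q)) (Fin.castAdd q i) (Fin.natAdd n j)) 0 (cm (Am q)) := by
    ext i j
    refine Fin.addCases (fun i => ?_) (fun i => ?_) i <;> refine Fin.addCases (fun j => ?_) (fun j => ?_) j
    · rw [bk_cc]
      rfl
    · rw [bk_cn]
      rfl
    · rw [bk_nc, cm_apply]
      unfold Am
      rw [Matrix.of_apply, if_neg, Rat.cast_zero]
      · rfl
      · simp only [Fin.val_castAdd, Fin.val_natAdd]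
        have := j.2
        omega
    · rw [bk_nn, cm_apply, cm_apply]
      unfold Am
      rw [Matrix.of_apply, Matrix.of_apply]
      simp only [Fin.val_natAdd]
      by_cases h : (j : ℕ) = i + 1
      · rw [if_pos h, if_pos (by omega)]
      · rw [if_neg h, if_neg (by omega)]
  have hNK : N.transpose * Kd q K + Kd q K * N = 0 := by
    rw [hN, transpose_transpose, hAm, bk_transpose]
    unfold Kd
    rw [bk_mul, bk_mul, bk_add]
    simp only [Matrix.mul_zero, Matrix.zero_mul, add_zero, transpose_zero]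
    rw [hAK]
    ext i j
    refine Fin.addCases (fun i => ?_) (fun i => ?_) i <;> refine Fin.addCases (fun j => ?_) (fun j => ?_) j
    · rw [bk_cc]
      rfl
    · rw [bk_cn]
      rfl
    · rw [bk_nc]
      rfl
    · rw [bk_nn]
      rfl
  set ψt : Fin (n + q) → ℂ := vk ψ (ψ ᵥ* b) with hψt
  have hcyc : (N ^ (n + q - 1)) *ᵥ ψt ≠ 0 := by
    intro h0
    have h1 := congrFun h0 ⟨n + q - 1, by omega⟩
    rw [hN, ← transpose_pow, ← cm_pow, mv_apply, Finset.sum_eq_single ⟨0, by omega⟩, transpose_apply, cm_apply, Am_pow] at h1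
    · rw [if_pos (by simp only; omega), Rat.cast_one, one_mul] at h1
      have h1' : ψt ⟨0, by omega⟩ = 0 := h1
      apply hψ0
      rw [← h1', hψt]
      unfold vk
      have : finSumFinEquiv.symm (⟨0, by omega⟩ : Fin (n + q)) = Sum.inl (⟨0, by omega⟩ : Fin n) := by
        have h3 : (⟨0, by omega⟩ : Fin (n + q)) = Fin.castAdd q ⟨0, by omega⟩ := rfl
        rw [h3, finSumFinEquiv_symm_apply_castAdd]
      simp only [Function.comp]
      rw [this]
      rfl
    · intro k _ hk
      rw [transpose_apply, cm_apply, Am_pow, if_neg, Rat.cast_zero, zero_mul]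
      simp only
      intro h
      exact hk (Fin.ext (by simp only; omega))
    · intro h
      exact absurd (Finset.mem_univ _) h
  have hE : ∀ c : ℂ, ∀ g ∈ TG (Yx n q Q), E N c * g * E N (-c) ∈ TG (Yx n q Q) := by
    intro c g hg
    rw [mem_TG] at hg ⊢
    rw [transpose_mul, transpose_mul, E_transpose, E_transpose, hN, transpose_transpose, ← Matrix.mul_assoc]
    have h1 := conj_E (Ac_nil (n := n + q)) (sy_x (q := q) hF.g).sol (-c) g.transpose hg
    rw [neg_neg] at h1
    exact h1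
  have htv : ∀ (M : Matrix (Fin n) (Fin n) ℂ) (s : ℂ), M = 1 + vecMulVec (s • v) ψ →
      (bk M ((M - 1) * b) 0 1).transpose = tv (Kd q K) ψt (s * c) := by
    intro M s hM
    have e1 : M - 1 = vecMulVec (s • v) ψ := by rw [hM, add_sub_cancel_left]
    rw [hψt, tv_Kd, bk_transpose, e1, hM]
    have e2 : (vecMulVec (s • v) ψ).transpose = (s * c) • vecMulVec ψ (ψ ᵥ* K) := by
      rw [transpose_vecMulVec, hvc, smul_smul, vecMulVec_smul]
    congr 1
    · rw [transpose_add, transpose_one, e2]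
      rfl
    · rw [transpose_mul, e2, Matrix.mul_smul, mul_vecMulVec]
      congr 2
      rw [mulVec_transpose]
    · rw [transpose_one]
  have hRS : tv (Kd q K) ψt c ∈ TG (Yx n q Q) := by
    have h1 := mono_x hC hU hUb tau1 (by simp) hC.shift
    have h2 := htv R 1 (by rw [one_smul, hC.rank])
    rw [one_mul] at h2
    rw [← h2, mem_TG, transpose_transpose]
    exact h1
  -- the isometries of `K`
  have hgK : g.transpose.transpose * K * g.transpose = K := by
    rw [transpose_transpose]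
    have h1 : (K * g.transpose * J0) * g = 1 := by
      rw [Matrix.mul_assoc, Matrix.mul_assoc, ← Matrix.mul_assoc g.transpose, hg, hK, nonsing_inv_mul _ hu]
    have h2 : g * (K * g.transpose * J0) = 1 := mul_eq_one_comm.1 h1
    calc g * K * g.transpose = g * K * g.transpose * (J0 * K) := by rw [hK, mul_nonsing_inv _ hu, mul_one]
      _ = g * (K * g.transpose * J0) * K := by simp only [Matrix.mul_assoc]
      _ = K := by rw [h2, one_mul]
  have hfin : bk g.transpose 0 a.transpose 1 ∈ TG (Yx n q Q) := by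
    rcases hF.par with hp | hp
    · -- symmetric
      have hKs : K.transpose = K := by rw [hK, transpose_nonsing_inv, hp]
      have h1 : om J0 v v = -2 * c := by
        have h2 := om_isom hRJ (ec n) (ec n)
        have hx : (1 + vecMulVec v ψ) *ᵥ (ec n) = ec n + (ψ ⬝ᵥ ec n) • v := by
          rw [add_mulVec, one_mulVec, vecMulVec_mulVec]
          ext i
          simp only [Pi.add_apply, Pi.smul_apply, MulOpposite.smul_eq_mul_unop, MulOpposite.unop_op, smul_eq_mul]
          ring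
        have h3 : om J0 v (ec n) = c * (ψ ⬝ᵥ ec n) := by rw [om_eq, hc, smul_dotProduct, smul_eq_mul]
        rw [hx, om_add, om_add_left, om_smul, om_add_left, om_smul_left, om_smul_left, om_symm hp v (ec n), h3] at h2
        have h4 : (ψ ⬝ᵥ ec n) ^ 2 * (om J0 v v + 2 * c) = 0 := by linear_combination h2
        have h5 := (mul_eq_zero.1 h4).resolve_left (pow_ne_zero _ hψe)
        linear_combination h5
      have h2 : om K ψ ψ = -2 / c := by
        have h3 : om J0 v v = c * (ψ ⬝ᵥ v) := by rw [om_eq, hc, smul_dotProduct, smul_eq_mul]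
        have h4 : ψ ⬝ᵥ v = c * om K ψ ψ := by
          rw [om_eq, hvc, dotProduct_smul, smul_eq_mul, dotProduct_comm]
        rw [h3, h4] at h1
        field_simp
        have h5 : c * (c * om K ψ ψ + 2) = 0 := by linear_combination h1
        have h6 := (mul_eq_zero.1 h5).resolve_left hc0
        linear_combination h6
      have h3 : om (Kd q K) ψt ψt = -2 / c := by rw [hψt, om_Kd, h2]
      have h4 : om (Kd q K) ψt ψt ≠ 0 := by
        rw [h3]
        exact div_ne_zero (by norm_num) hc0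
      have h5 : rf (Kd q K) ψt = tv (Kd q K) ψt c := by
        unfold rf
        rw [h3]
        congr 1
        field_simp
      exact gen_symm hKs hKdet _ (TG_ZC _) hNn hNK hcyc h4 hE (by rw [h5]; exact hRS) _ hgK _
    · -- alternating
      have hKs : K.transpose = -K := by
        rw [hK, transpose_nonsing_inv, hp]
        refine inv_eq_right_inv ?_
        rw [neg_mul_neg, mul_nonsing_inv _ hu]
      have h1 : ∃ x, om (Kd q K) ψt x ≠ 0 := by
        have h2 : ψ ᵥ* K ≠ 0 := by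
          intro h0
          rw [h0, smul_zero] at hvc
          exact hv0 hvc
        obtain ⟨j, hj⟩ := Function.ne_iff.1 h2
        refine ⟨vk (Pi.single j 1) 0, ?_⟩
        rw [hψt, om_Kd, om_eq, dotProduct_single, mul_one]
        exact hj
      exact gen_skew hKs hKdet _ (TG_ZC _) hNn hNK hcyc h1 hE hc0 hRS _ hgK _
  rw [mem_TG, bk_transpose, transpose_transpose, transpose_transpose, transpose_zero, transpose_one] at hfin
  exact hfin

end Run7.h893.NF
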