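import Pool.Agent.Run7.h893.NF.Sys
import Pool.Agent.Run7.h893.NF.Grp

/-!
# The higher solutions of the Frobenius method: the block system
-/

set_option autoImplicit false

open Pool.Agent.Y119.HY

namespace Run7.h893.NF

open Run7.h893.HO

variable {n q : ℕ} {Q : Polynomial ℚ}

/-- the residue at one -/
noncomputable def Nx (n q : ℕ) (Q : Polynomial ℚ) : Matrix (Fin (n + q)) (Fin (n + q)) ℚ :=
  Matrix.of fun i j => if (i : ℕ) + 1 = n then Q.coeff j else 0

/-- the coefficients of the solutions of the block system -/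
noncomputable def hx (n q : ℕ) (Q : Polynomial ℚ) (k : ℕ) : Matrix (Fin (n + q)) (Fin (n + q)) ℚ :=
  Matrix.of fun i j => if (i : ℕ) < n then hq n Q k i j else if k = 0 ∧ (i : ℕ) = j then 1 else 0

lemma hq_zero (i j : ℕ) : hq n Q 0 i j = if i = j then 1 else 0 := by
  unfold hq aq kx
  simp only [Finset.range_zero, Finset.prod_empty, mul_one, Nat.cast_zero, map_zero, zero_add]
  rw [PowerSeries.coeff_X_pow]
  by_cases h : i = j
  · rw [if_pos h, if_pos h.symm]
  · rw [if_neg h, if_neg (Ne.symm h)]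

lemma hq_lin (k i j : ℕ) : (k : ℚ) * hq n Q k i j + (if j = 0 then 0 else hq n Q k i (j - 1)) = hq n Q k (i + 1) j := by
  unfold hq
  rw [pow_succ', mul_assoc, coeff_kx_mul]

/-- the equation of order `n` -/
lemma hq_eqn (hQ : QG n Q) (k j : ℕ) : hq n Q (k + 1) n j = hq n Q k n j + ∑ l ∈ Finset.range n, Q.coeff l * hq n Q k l j := by
  have h1 : Polynomial.aeval (kx k) Q = ∑ l ∈ Finset.range n, PowerSeries.C (Q.coeff l) * kx k ^ l + kx k ^ n := by
    rw [Polynomial.aeval_eq_sum_range, hQ.deg, Finset.sum_range_succ]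
    have h2 : Q.coeff n = 1 := by
      rw [← hQ.deg]
      exact hQ.monic.coeff_natDegree
    rw [h2, one_smul]
    congr 1
    refine Finset.sum_congr rfl fun l _ => ?_
    rw [PowerSeries.smul_eq_C_mul]
  unfold hq
  rw [aq_succ, h1, add_mul, map_add, Finset.sum_mul, map_sum, add_comm]
  congr 1
  refine Finset.sum_congr rfl fun l _ => ?_
  rw [mul_assoc, PowerSeries.coeff_C_mul]

lemma hx_lt (k : ℕ) {i : Fin (n + q)} (hi : (i : ℕ) < n) (j : Fin (n + q)) : hx n q Q k i j = hq n Q k i j := by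
  unfold hx
  rw [Matrix.of_apply, if_pos hi]

lemma hx_ge (k : ℕ) {i : Fin (n + q)} (hi : ¬ (i : ℕ) < n) (j : Fin (n + q)) :
    hx n q Q k i j = if k = 0 ∧ (i : ℕ) = j then 1 else 0 := by
  unfold hx
  rw [Matrix.of_apply, if_neg hi]

lemma Q_coeff (hQ : QG n Q) (l : ℕ) (hl : n ≤ l) : Q.coeff l = if l = n then 1 else 0 := by
  split_ifs with h
  · rw [h, ← hQ.deg]
    exact hQ.monic.coeff_natDegree
  · exact Polynomial.coeff_eq_zero_of_natDegree_lt (by rw [hQ.deg]; omega)

lemma Nx_mul (hQ : QG n Q) (k : ℕ) (i j : Fin (n + q)) : (Nx n q Q * hx n q Q k) i j = if (i : ℕ) + 1 = n then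
    ∑ l ∈ Finset.range n, Q.coeff l * hq n Q k l j + (if k = 0 ∧ n = (j : ℕ) then 1 else 0) else 0 := by
  rw [Matrix.mul_apply]
  unfold Nx
  simp only [Matrix.of_apply, ite_mul, zero_mul]
  split_ifs with h h2
  · rw [Fin.sum_univ_add, Finset.sum_range]
    congr 1
    · refine Finset.sum_congr rfl fun l _ => ?_
      rw [hx_lt k (by simp) j]
      simp
    · have hq : 0 < q := by
        have := j.2
        omega
      rw [Finset.sum_eq_single ⟨0, hq⟩]
      · rw [hx_ge k (by simp) j, Q_coeff hQ _ (by simp), if_pos (by simp), if_pos (by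
          simp only [Fin.val_natAdd, add_zero]
          exact h2), one_mul]
      · intro l _ hl
        rw [Q_coeff hQ _ (by simp), if_neg, zero_mul]
        intro h3
        apply hl
        apply Fin.ext
        simp only [Fin.val_natAdd] at h3
        show (l : ℕ) = 0
        omega
      · intro h3
        exact absurd (Finset.mem_univ _) h3
  · rw [Fin.sum_univ_add, Finset.sum_range, add_zero, ← add_zero (∑ l : Fin n, Q.coeff l * hq n Q k l j)]
    congr 1
    · refine Finset.sum_congr rfl fun l _ => ?_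
      rw [hx_lt k (by simp) j]
      simp
    · refine Finset.sum_eq_zero fun l _ => ?_
      rw [hx_ge k (by simp) j, Q_coeff hQ _ (by simp)]
      by_cases h3 : ((Fin.natAdd n l : Fin (n + q)) : ℕ) = n
      · rw [if_pos h3, if_neg, mul_zero]
        rw [h3]
        exact h2
      · rw [if_neg h3, zero_mul]
  · exact Finset.sum_const_zero

/-- **the block system** -/
theorem sy_x (hQ : QG n Q) : Sy (n + q) (Nx n q Q) (hx n q Q) := by
  refine ⟨?_, fun k i j => ?_⟩
  · ext i j
    rw [Matrix.one_apply]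
    by_cases hi : (i : ℕ) < n
    · rw [hx_lt 0 hi, hq_zero]
      by_cases h : i = j
      · rw [if_pos h, if_pos (by rw [h])]
      · rw [if_neg h, if_neg fun h' => h (Fin.ext h')]
    · rw [hx_ge 0 hi]
      by_cases h : i = j
      · rw [if_pos h, if_pos ⟨rfl, by rw [h]⟩]
      · rw [if_neg h, if_neg fun h' => h (Fin.ext h'.2)]
  · have hn := hQ.two
    rw [mul_Am, mul_Am, Am_mul, Am_mul, Nx_mul hQ]
    have hsub : ∀ k, (if h : (j : ℕ) = 0 then 0 else hx n q Q k i ⟨j - 1, by omega⟩) =
        if (i : ℕ) < n then (if (j : ℕ) = 0 then 0 else hq n Q k i (j - 1)) else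
          if k = 0 ∧ (i : ℕ) + 1 = j then 1 else 0 := by
      intro k
      by_cases hi : (i : ℕ) < n
      · rw [if_pos hi]
        split_ifs with h1
        · rfl
        · rw [hx_lt k hi]
      · rw [if_neg hi]
        by_cases h1 : (j : ℕ) = 0
        · rw [dif_pos h1, if_neg (by omega)]
        · rw [dif_neg h1, hx_ge k hi]
          by_cases h2 : k = 0 ∧ (i : ℕ) + 1 = j
          · rw [if_pos h2, if_pos ⟨h2.1, by simp only; omega⟩]
          · rw [if_neg h2, if_neg fun h3 => h2 ⟨h3.1, by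
              have := h3.2
              simp only at this
              omega⟩]
    rw [hsub, hsub]
    by_cases hi : (i : ℕ) < n
    · have e1 := hq_lin (n := n) (Q := Q) (k + 1) i j
      have e2 := hq_lin (n := n) (Q := Q) k i j
      push_cast at e1
      rw [if_pos hi, if_pos hi, hx_lt _ hi, hx_lt _ hi]
      by_cases h1 : (i : ℕ) + 1 < n
      · have h2 : (i : ℕ) + 1 < n + q := by omega
        rw [dif_pos h2, dif_pos h2, if_neg (by omega : ¬ (i : ℕ) + 1 = n), hx_lt _ (by exact h1), hx_lt _ (by exact h1)]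
        simp only
        linear_combination e1 - e2
      · have h3 : (i : ℕ) + 1 = n := by omega
        rw [if_pos h3]
        have h4 : ∀ k, (if h : (i : ℕ) + 1 < n + q then hx n q Q k ⟨i + 1, h⟩ j else 0) = if k = 0 ∧ n = (j : ℕ) then 1 else 0 := by
          intro k
          by_cases h5 : (i : ℕ) + 1 < n + q
          · rw [dif_pos h5, hx_ge _ (by simp only; omega)]
            simp only [h3]
          · rw [dif_neg h5, if_neg]
            have := j.2
            omega
        rw [h4, h4, if_neg (by omega : ¬ (k + 1 = 0 ∧ n = (j : ℕ)))]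
        rw [h3] at e1 e2
        have e3 := hq_eqn hQ k j
        linear_combination e1 - e2 + e3
    · rw [if_neg hi, if_neg hi, hx_ge _ hi, hx_ge _ hi, if_neg (by omega : ¬ (i : ℕ) + 1 = n)]
      have h4 : ∀ k, (if h : (i : ℕ) + 1 < n + q then hx n q Q k ⟨i + 1, h⟩ j else 0) =
          if k = 0 ∧ (i : ℕ) + 1 = j then 1 else 0 := by
        intro k
        by_cases h5 : (i : ℕ) + 1 < n + q
        · rw [dif_pos h5, hx_ge _ (by simp only; omega)]
        · rw [dif_neg h5, if_neg]
          have := j.2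
          omega
      rw [h4, h4, if_neg (by omega), if_neg (by omega)]
      by_cases hk : k = 0
      · subst hk
        simp
      · rw [if_neg (by omega), if_neg (by omega)]
        simp

/-! ### the exponential -/

/-- the entries of the exponential of the shift -/
noncomputable def ee (L : ℂ) (i j : ℕ) : ℂ := if i ≤ j then L ^ (j - i) / ((j - i).factorial : ℂ) else 0

lemma E_Am {m : ℕ} (L : ℂ) (i j : Fin m) : E (cm (Am m)) L i j = ee L i j := by
  unfold E ee
  rw [Matrix.sum_apply]
  have h1 : ∀ p, ((L ^ p / (p.factorial : ℂ)) • cm (Am m) ^ p) i j = if (j : ℕ) = i + p then L ^ p / (p.factorial : ℂ) else 0 := by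
    intro p
    rw [Matrix.smul_apply, ← cm_pow, cm_apply, Am_pow, smul_eq_mul]
    split_ifs <;> simp
  simp only [h1]
  split_ifs with h2
  · rw [Finset.sum_eq_single ((j : ℕ) - i)]
    · rw [if_pos (by omega)]
    · intro b _ hb
      rw [if_neg (by omega)]
    · intro h3
      exact absurd (Finset.mem_range.2 (by have := j.2; omega)) h3
  · exact Finset.sum_eq_zero fun p _ => if_neg (by omega)

/-- the solutions of the block system -/
noncomputable def Yx (n q : ℕ) (Q : Polynomial ℚ) (z : ℂ) : Matrix (Fin (n + q)) (Fin (n + q)) ℂ :=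
  Yf (cm (Am (n + q))) (Gc (hx n q Q)) z

lemma Hf_Gc (h : ℕ → Matrix (Fin n) (Fin n) ℚ) (z : ℂ) (i j : Fin n) : Hf (Gc h) z i j = ps (fun k => ((h k i j : ℚ) : ℂ)) z := rfl

lemma Hx_ge (z : ℂ) {i : Fin (n + q)} (hi : ¬ (i : ℕ) < n) (j : Fin (n + q)) :
    Hf (Gc (hx n q Q)) z i j = if (i : ℕ) = j then 1 else 0 := by
  rw [Hf_Gc]
  unfold ps
  rw [tsum_eq_single 0]
  · simp only
    rw [hx_ge 0 hi]
    split_ifs with h1 h2 h2
    · simp
    · exact absurd h1.2 h2
    · exact absurd ⟨rfl, h2⟩ h1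
    · simp
  · intro k hk
    simp only
    rw [hx_ge k hi, if_neg (fun h => hk h.1)]
    simp

lemma Hx_cc (z : ℂ) (i j : Fin n) : Hf (Gc (hx n q Q)) z (Fin.castAdd q i) (Fin.castAdd q j) = Hf (Hc n Q) z i j := by
  rw [Hf_Gc]
  unfold Hf
  rw [Matrix.of_apply]
  congr 1
  funext k
  rw [hx_lt k (by simp)]
  rfl

lemma Yx_cc (z : ℂ) (i j : Fin n) : Yx n q Q z (Fin.castAdd q i) (Fin.castAdd q j) = Yf (cm (Am n)) (Hc n Q) z i j := by
  unfold Yx Yf
  rw [Matrix.mul_apply, Matrix.mul_apply, Fin.sum_univ_add]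
  have h1 : ∑ l : Fin q, Hf (Gc (hx n q Q)) z (Fin.castAdd q i) (Fin.natAdd n l) *
      E (cm (Am (n + q))) (Complex.log z) (Fin.natAdd n l) (Fin.castAdd q j) = 0 := by
    refine Finset.sum_eq_zero fun l _ => ?_
    rw [E_Am]
    unfold ee
    rw [if_neg, mul_zero]
    simp only [Fin.val_natAdd, Fin.val_castAdd]
    have := j.2
    omega
  rw [h1, add_zero]
  refine Finset.sum_congr rfl fun l _ => ?_
  rw [Hx_cc, E_Am, E_Am]
  rfl

lemma Yx_ge (z : ℂ) (i : Fin q) (j : Fin (n + q)) : Yx n q Q z (Fin.natAdd n i) j = ee (Complex.log z) (n + i) j := by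
  unfold Yx Yf
  rw [Matrix.mul_apply, Finset.sum_eq_single (Fin.natAdd n i)]
  · rw [Hx_ge z (by simp), if_pos rfl, one_mul, E_Am]
    rfl
  · intro b _ hb
    rw [Hx_ge z (by simp), if_neg fun h => hb (Fin.ext h.symm), zero_mul]
  · intro h
    exact absurd (Finset.mem_univ _) h

lemma ee_add (L : ℂ) (i j : ℕ) : ee L (n + i) (n + j) = ee L i j := by
  unfold ee
  by_cases h : i ≤ j
  · rw [if_pos h, if_pos (by omega)]
    have : n + j - (n + i) = j - i := by omega
    rw [this]
  · rw [if_neg h, if_neg (by omega)]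

/-- the block form of the solutions -/
theorem Yx_eq (z : ℂ) : Yx n q Q z = bk (Yf (cm (Am n)) (Hc n Q) z) (Matrix.of fun i j => Yx n q Q z (Fin.castAdd q i) (Fin.natAdd n j)) 0
    (E (cm (Am q)) (Complex.log z)) := by
  ext i j
  unfold bk
  rw [Matrix.submatrix_apply]
  refine Fin.addCases (fun i => ?_) (fun i => ?_) i <;> refine Fin.addCases (fun j => ?_) (fun j => ?_) j
  · rw [finSumFinEquiv_symm_apply_castAdd, finSumFinEquiv_symm_apply_castAdd, Matrix.fromBlocks_apply₁₁, Yx_cc]
  · rw [finSumFinEquiv_symm_apply_castAdd, finSumFinEquiv_symm_apply_natAdd, Matrix.fromBlocks_apply₁₂]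
    rfl
  · rw [finSumFinEquiv_symm_apply_castAdd, finSumFinEquiv_symm_apply_natAdd, Matrix.fromBlocks_apply₂₁, Yx_ge]
    unfold ee
    rw [if_neg]
    · rfl
    · simp only [Fin.val_castAdd]
      have := j.2
      omega
  · rw [finSumFinEquiv_symm_apply_natAdd, finSumFinEquiv_symm_apply_natAdd, Matrix.fromBlocks_apply₂₂, Yx_ge, E_Am]
    exact ee_add _ _ _

end Run7.h893.NF
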