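import Pool.Agent.Run7.h893.HO.Gen2

/-!
# Systems `θ H + H N = ((1 - z) N + z N1) H / (1 - z)`: the G-system of the holomorphic part
-/

set_option autoImplicit false

open PowerSeries
open Pool.Agent.Y113 hiding Bm
open Pool.Agent.Y120.GF Pool.Agent.Y120.GH Pool.Agent.Y119.HZ
open Pool.Agent.Y119.HY (Am Am_nil cm Ep E Hf Yf Sol)

namespace Run7.h893.NF

open Run7.h893.HO

/-- systems with the shift as residue at the origin -/
structure Sy (n : ℕ) (M : Matrix (Fin n) (Fin n) ℚ) (h : ℕ → Matrix (Fin n) (Fin n) ℚ) : Prop where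
  zero : h 0 = 1
  step : ∀ (k : ℕ) (i j : Fin n), ((k : ℚ) + 1) * h (k + 1) i j + ((h (k + 1) * Am n) i j - (Am n * h (k + 1)) i j) =
    (k : ℚ) * h k i j + ((h k * Am n) i j - (Am n * h k) i j) + (M * h k) i j

variable {n : ℕ} {M : Matrix (Fin n) (Fin n) ℚ} {h : ℕ → Matrix (Fin n) (Fin n) ℚ}

/-- the holomorphic part as a matrix of power series -/
noncomputable def Gp (h : ℕ → Matrix (Fin n) (Fin n) ℚ) : Matrix (Fin n) (Fin n) ℚ⟦X⟧ :=
  Matrix.of fun i j => PowerSeries.mk fun k => h k i j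

lemma coeff_Gp (k : ℕ) (i j : Fin n) : coeff k (Gp h i j) = h k i j := by
  unfold Gp
  rw [Matrix.of_apply, coeff_mk]

lemma cf_Gp (k : ℕ) : cf (Gp h) k = h k := by
  ext i j
  unfold cf
  rw [Matrix.map_apply, coeff_Gp]

/-- the complex coefficients -/
noncomputable def Gc (h : ℕ → Matrix (Fin n) (Fin n) ℚ) (k : ℕ) : Matrix (Fin n) (Fin n) ℂ := cm (h k)

lemma Sy.sol (hS : Sy n M h) : Sol (cm (Am n)) (cm M) (Gc h) := by
  refine ⟨?_, fun k => ?_⟩
  · unfold Gc
    rw [hS.zero, Pool.Agent.Y119.HY.cm_one]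
  · ext i j
    have h1 := hS.step k i j
    unfold Gc
    rw [← Pool.Agent.Y119.HY.cm_mul, ← Pool.Agent.Y119.HY.cm_mul, ← Pool.Agent.Y119.HY.cm_mul, ← Pool.Agent.Y119.HY.cm_mul,
      ← Pool.Agent.Y119.HY.cm_mul]
    simp only [Matrix.add_apply, Matrix.smul_apply, Matrix.sub_apply, smul_eq_mul, Pool.Agent.Y119.HY.cm_apply]
    exact_mod_cast h1

lemma ps_A1_s {D : ℕ} {b : Fin n → Fin n → ℤ} (hb : ∀ i j, (b i j : ℚ) = D * M i j) (i j : Fin n) :
    ps (A1 n D b i j) = C (D : ℚ) * ((1 - X) * C (Am n i j) + X * C (M i j)) := by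
  unfold ps Pool.Agent.Y119.HZ.A1
  rw [Polynomial.map_add, Polynomial.map_mul, Polynomial.map_mul, Polynomial.map_sub, Polynomial.map_one, Polynomial.map_X,
    Polynomial.map_C, Polynomial.map_C, Polynomial.coe_add, Polynomial.coe_mul, Polynomial.coe_mul,
    Polynomial.coe_C, Polynomial.coe_C, Polynomial.coe_sub, Polynomial.coe_one, Polynomial.coe_X]
  have e1 : (Int.castRingHom ℚ) (b i j) = D * M i j := hb i j
  have e2 : (Int.castRingHom ℚ) (if (j : ℕ) = i + 1 then (D : ℤ) else 0) = D * Am n i j := by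
    unfold Am
    rw [Matrix.of_apply]
    split_ifs <;> simp
  rw [e1, e2, map_mul, map_mul]
  ring

lemma exists_b_s (M : Matrix (Fin n) (Fin n) ℚ) : ∃ (D : ℕ) (b : Fin n → Fin n → ℤ), D ≠ 0 ∧ ∀ i j, (b i j : ℚ) = D * M i j := by
  classical
  set D : ℕ := ∏ p : Fin n × Fin n, (M p.1 p.2).den with hD
  have hD0 : D ≠ 0 := Finset.prod_ne_zero_iff.2 fun p _ => (M p.1 p.2).den_nz
  have h1 : ∀ i j, ∃ b : ℤ, (b : ℚ) = D * M i j := by
    intro i j
    obtain ⟨c, hc⟩ : (M i j).den ∣ D :=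
      Finset.dvd_prod_of_mem (fun p : Fin n × Fin n => (M p.1 p.2).den) (Finset.mem_univ (i, j))
    refine ⟨c * (M i j).num, ?_⟩
    have h2 := Rat.mul_den_eq_num (M i j)
    rw [hc]
    push_cast
    rw [← h2]
    ring
  choose b hb using h1
  exact ⟨D, b, hD0, hb⟩

/-- the fundamental matrix of the system for the entries -/
noncomputable def Ph (h : ℕ → Matrix (Fin n) (Fin n) ℚ) (p q : Fin n × Fin n) : Polynomial (PowerSeries ℂ) :=
  ∑ c, Polynomial.C (cx (Gp h p.1 c)) * (pE (cm (Am n)) c q.1 q.2 p.2).map (C (R := ℂ))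

lemma Ph_coeff (p q : Fin n × Fin n) (k : ℕ) : (Ph h p q).coeff k =
    ∑ c, cx (Gp h p.1 c) * C ((pE (cm (Am n)) c q.1 q.2 p.2).coeff k) := by
  unfold Ph
  rw [Polynomial.finsetSum_coeff]
  refine Finset.sum_congr rfl fun c _ => ?_
  rw [Polynomial.coeff_C_mul, Polynomial.coeff_map]

/-- the entries as a family -/
noncomputable def gf (h : ℕ → Matrix (Fin n) (Fin n) ℚ) (a : Fin (n * n)) : ℚ⟦X⟧ := Gp h (ix n a).1 (ix n a).2

lemma rho_Ph (hQ : Sy n M h) (p q : Fin n × Fin n) : rho (Ph h p q) = if p = q then 1 else 0 := by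
  have hN : cm (Am n) ^ n = 0 := Pool.Agent.Y119.HY.Ac_nil
  have hN' : (-cm (Am n)) ^ n = 0 := by rw [neg_pow, hN, mul_zero]
  unfold Ph
  rw [map_sum]
  have h1 : ∀ c, rho (Polynomial.C (cx (Gp h p.1 c)) * (pE (cm (Am n)) c q.1 q.2 p.2).map (C (R := ℂ))) =
      (if p.1 = c then 1 else 0) * ((if c = q.1 then 1 else 0) * (if q.2 = p.2 then 1 else 0)) := by
    intro c
    unfold rho
    rw [map_mul, RingHom.comp_apply, RingHom.comp_apply, Polynomial.coe_evalRingHom, Polynomial.eval_C]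
    congr 1
    · rw [← coeff_zero_eq_constantCoeff_apply, coeff_cx, coeff_Gp, hQ.zero, Matrix.one_apply]
      split_ifs <;> simp
    · have h3 : Polynomial.eval 0 ((pE (cm (Am n)) c q.1 q.2 p.2).map (C (R := ℂ))) =
          C ((pE (cm (Am n)) c q.1 q.2 p.2).eval 0) := by
        have := Polynomial.eval_map_apply (p := pE (cm (Am n)) c q.1 q.2 p.2) (C (R := ℂ)) 0
        rw [map_zero] at this
        exact this
      rw [h3]
      unfold pE
      rw [Polynomial.eval_mul, Ep_eval_zero hN, Ep_eval_zero hN']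
      simp
  simp only [h1]
  rw [Finset.sum_eq_single p.1]
  · rw [if_pos rfl, one_mul]
    by_cases h2 : p = q
    · rw [if_pos h2, h2, if_pos rfl, if_pos rfl, one_mul]
    · rw [if_neg h2]
      by_cases h3 : p.1 = q.1
      · rw [if_neg (fun h4 : q.2 = p.2 => h2 (Prod.ext h3 h4.symm)), mul_zero]
      · rw [if_neg h3, zero_mul]
  · intro c _ hc
    rw [if_neg (Ne.symm hc), zero_mul]
  · intro h
    exact absurd (Finset.mem_univ _) h

/-- the system at the origin -/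
theorem ode_Gp (hQ : Sy n M h) : (1 - X : ℚ⟦X⟧) • (th (Gp h) + Gp h * km (Am n)) =
    ((1 - X : ℚ⟦X⟧) • km (Am n) + (X : ℚ⟦X⟧) • km (M)) * Gp h := by
  have hS : (1 - X : ℚ⟦X⟧) • (th (Gp h) + Gp h * km (Am n) - km (Am n) * Gp h) = (X : ℚ⟦X⟧) • (km (M) * Gp h) := by
    have hc : ∀ k, cf (th (Gp h) + Gp h * km (Am n) - km (Am n) * Gp h) k =
        (k : ℚ) • h k + (h k * Am n - Am n * h k) := by
      intro k
      have h1 : cf (th (Gp h) + Gp h * km (Am n) - km (Am n) * Gp h) k =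
          cf (th (Gp h)) k + cf (Gp h * km (Am n)) k - cf (km (Am n) * Gp h) k := by
        ext i j
        unfold cf
        simp only [Matrix.map_apply, Matrix.sub_apply, Matrix.add_apply, map_sub, map_add]
      rw [h1, cf_th, cf_mul_km, cf_km_mul, cf_Gp, add_sub_assoc]
    ext i j k
    rw [Matrix.smul_apply, Matrix.smul_apply, smul_eq_mul, smul_eq_mul, sub_mul, one_mul, map_sub]
    have h2 : ∀ k, coeff k ((th (Gp h) + Gp h * km (Am n) - km (Am n) * Gp h) i j) =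
        ((k : ℚ) • h k + (h k * Am n - Am n * h k)) i j := fun k => congrFun (congrFun (hc k) i) j
    have h3 : ∀ k, coeff k ((km (M) * Gp h) i j) = (M * h k) i j := by
      intro k
      have := congrFun (congrFun (cf_km_mul (M) (Gp h) k) i) j
      rw [cf_Gp] at this
      exact this
    rcases k with _ | k
    · rw [coeff_zero_X_mul, coeff_zero_X_mul, h2, hQ.zero]
      simp
    · rw [coeff_succ_X_mul, coeff_succ_X_mul, h2, h2, h3]
      have h4 := hQ.step k i j
      simp only [Matrix.add_apply, Matrix.smul_apply, Matrix.sub_apply, smul_eq_mul]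
      push_cast
      linear_combination h4
  rw [smul_sub] at hS
  rw [add_mul, smul_mul_assoc, smul_mul_assoc, ← hS]
  abel

lemma ode_int_s (hQ : Sy n M h) {D : ℕ} {b : Fin n → Fin n → ℤ} (hb : ∀ i j, (b i j : ℚ) = D * M i j) (i j : Fin n) :
    ps (T1 D) * (X * d⁄dX ℚ (Gp h i j) + ∑ k, Gp h i k * C (Am n k j)) = ∑ k, ps (A1 n D b i k) * Gp h k j := by
  have h1 := congrFun (congrFun (ode_Gp hQ) i) j
  rw [Matrix.smul_apply, Matrix.add_apply, Matrix.mul_apply, Matrix.mul_apply, smul_eq_mul] at h1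
  rw [ps_T1, mul_assoc]
  have h2 : X * d⁄dX ℚ (Gp h i j) = th (Gp h) i j := rfl
  have h3 : ∑ k, Gp h i k * C (Am n k j) = ∑ k, Gp h i k * km (Am n) k j := rfl
  rw [h2, h3, h1, Finset.mul_sum]
  refine Finset.sum_congr rfl fun k _ => ?_
  rw [ps_A1_s hb, Matrix.add_apply, Matrix.smul_apply, Matrix.smul_apply, smul_eq_mul, smul_eq_mul, km_apply, km_apply]
  ring

/-- **the entries of the holomorphic part form a G-system** -/
theorem gsys_Gp (hQ : Sy n M h) (hH : ∀ i j, SDc (Gp h i j)) {W : Matrix (Fin n) (Fin n) ℚ⟦X⟧} (hHW : Gp h * W = 1)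
    (hW : ∀ i j, SDc (W i j)) {D : ℕ} {b : Fin n → Fin n → ℤ}
    (hb : ∀ i j, (b i j : ℚ) = D * M i j) :
    ∃ (q : ℕ) (C : ℝ), GSys q C (Polynomial.X * T1 D) (fun p : Fin n × Fin n => Gp h p.1 p.2) :=
  gsysL (N := Am n) Am_nil hHW (ode_int_s hQ hb) hH hW

lemma ode_A2_s (hQ : Sy n M h) {D : ℕ} {b : Fin n → Fin n → ℤ} (hb : ∀ i j, (b i j : ℚ) = D * M i j)
    (p : Fin n × Fin n) : ps (Polynomial.X * T1 D) * d⁄dX ℚ (Gp h p.1 p.2) =
      ∑ q, ps (A2 n D b p q) * Gp h q.1 q.2 := by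
  have h1 := sum_A2 psR D b p (fun q => Gp h q.1 q.2)
  simp only [psR_Ni] at h1
  simp only [psR_apply] at h1
  rw [h1, ← ode_int_s hQ hb, ps_X_mul]
  have h2 : ∑ l, C (Am n l p.2) * Gp h p.1 l = ∑ k, Gp h p.1 k * C (Am n k p.2) :=
    Finset.sum_congr rfl fun l _ => mul_comm _ _
  rw [h2]
  ring

theorem Phi_ode_s (hQ : Sy n M h) {D : ℕ} {b : Fin n → Fin n → ℤ} (hb : ∀ i j, (b i j : ℚ) = D * M i j)
    (p q : Fin n × Fin n) (k : ℕ) : cxR (T1 D) * ((X : PowerSeries ℂ) * PowerSeries.derivative ℂ ((Ph h p q).coeff k) +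
      ((k : PowerSeries ℂ) + 1) * (Ph h p q).coeff (k + 1)) = ∑ l, cxR (A2 n D b p l) * (Ph h l q).coeff k := by
  have hN : cm (Am n) ^ n = 0 := Pool.Agent.Y119.HY.Ac_nil
  set N := cm (Am n) with hNd
  obtain ⟨i, j⟩ := p
  obtain ⟨a, c'⟩ := q
  -- the equation over the complex numbers
  have hode : ∀ i j, cxR (T1 D) * (X * PowerSeries.derivative ℂ (cx (Gp h i j)) + ∑ k, cx (Gp h i k) * C (N k j)) =
      ∑ k, cxR (A1 n D b i k) * cx (Gp h k j) := by
    intro i j
    have h1 := congrArg cx (ode_int_s hQ hb i j)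
    rw [map_mul, map_add, map_mul, map_sum, map_sum, cx_der] at h1
    have h2 : cx (X : ℚ⟦X⟧) = X := by rw [cx, map_X]
    rw [h2] at h1
    simp only [map_mul, cx_C] at h1
    exact h1
  rw [sum_A2]
  simp only [cxR_Ni]
  simp only [Ph_coeff]
  -- the derivative of the coefficients
  have hd : PowerSeries.derivative ℂ (∑ c, cx (Gp h i c) * C ((pE N c a c' j).coeff k)) =
      ∑ c, PowerSeries.derivative ℂ (cx (Gp h i c)) * C ((pE N c a c' j).coeff k) := by
    rw [map_sum]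
    refine Finset.sum_congr rfl fun c _ => ?_
    rw [Derivation.leibniz, PowerSeries.derivative_C]
    simp only [smul_eq_mul]
    ring
  have hk : ((k : PowerSeries ℂ) + 1) * ∑ c, cx (Gp h i c) * C ((pE N c a c' j).coeff (k + 1)) =
      ∑ c, (∑ d, cx (Gp h i d) * C (N d c)) * C ((pE N c a c' j).coeff k) -
      ∑ l, C (N l j) * ∑ c, cx (Gp h i c) * C ((pE N c a c' l).coeff k) := by
    have e1 : ((k : PowerSeries ℂ) + 1) = C ((k : ℂ) + 1) := by rw [map_add, map_one, map_natCast]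
    have e2 : ∀ c, C ((k : ℂ) + 1) * (cx (Gp h i c) * C ((pE N c a c' j).coeff (k + 1))) =
        cx (Gp h i c) * (∑ d, C (N c d) * C ((pE N d a c' j).coeff k)) -
        cx (Gp h i c) * ∑ d, C (N d j) * C ((pE N c a c' d).coeff k) := by
      intro c
      have e3 : C ((k : ℂ) + 1) * C ((pE N c a c' j).coeff (k + 1)) =
          (∑ d, C (N c d) * C ((pE N d a c' j).coeff k)) - ∑ d, C (N d j) * C ((pE N c a c' d).coeff k) := by
        rw [← map_mul, pE_deriv hN, map_sub, map_sum, map_sum]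
        simp only [map_mul]
      rw [← mul_sub, ← e3]
      ring
    rw [e1, Finset.mul_sum, Finset.sum_congr rfl fun c _ => e2 c, Finset.sum_sub_distrib]
    congr 1
    · simp only [Finset.mul_sum, Finset.sum_mul]
      rw [Finset.sum_comm]
      exact Finset.sum_congr rfl fun c _ => Finset.sum_congr rfl fun d _ => by ring
    · simp only [Finset.mul_sum]
      rw [Finset.sum_comm]
      exact Finset.sum_congr rfl fun c _ => Finset.sum_congr rfl fun d _ => by ring
  rw [hd, hk]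
  have hmain : cxR (T1 D) * ((X : PowerSeries ℂ) * ∑ c, PowerSeries.derivative ℂ (cx (Gp h i c)) * C ((pE N c a c' j).coeff k) +
      ∑ c, (∑ d, cx (Gp h i d) * C (N d c)) * C ((pE N c a c' j).coeff k)) =
      ∑ k', cxR (A1 n D b i k') * ∑ c, cx (Gp h k' c) * C ((pE N c a c' j).coeff k) := by
    have e1 : (X : PowerSeries ℂ) * ∑ c, PowerSeries.derivative ℂ (cx (Gp h i c)) * C ((pE N c a c' j).coeff k) +
        ∑ c, (∑ d, cx (Gp h i d) * C (N d c)) * C ((pE N c a c' j).coeff k) =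
        ∑ c, (X * PowerSeries.derivative ℂ (cx (Gp h i c)) + ∑ d, cx (Gp h i d) * C (N d c)) *
          C ((pE N c a c' j).coeff k) := by
      rw [Finset.mul_sum, ← Finset.sum_add_distrib]
      exact Finset.sum_congr rfl fun c _ => by ring
    rw [e1, Finset.mul_sum]
    have e2 : ∀ c, cxR (T1 D) * ((X * PowerSeries.derivative ℂ (cx (Gp h i c)) + ∑ d, cx (Gp h i d) * C (N d c)) *
          C ((pE N c a c' j).coeff k)) = ∑ k', cxR (A1 n D b i k') * (cx (Gp h k' c) * C ((pE N c a c' j).coeff k)) := by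
      intro c
      rw [← mul_assoc, hode i c, Finset.sum_mul]
      exact Finset.sum_congr rfl fun k' _ => by ring
    rw [Finset.sum_congr rfl fun c _ => e2 c, Finset.sum_comm]
    exact Finset.sum_congr rfl fun k' _ => by rw [Finset.mul_sum]
  rw [← hmain]
  ring

theorem qu_hf_s (hQ : Sy n M h) (hH : ∀ i j, SDc (Gp h i j)) {D : ℕ} {b : Fin n → Fin n → ℤ}
    (hb : ∀ i j, (b i j : ℚ) = D * M i j) :
    QU0 (Polynomial.X * T1 D) (fun a c : Fin (n * n) => A2 n D b (ix n a) (ix n c)) := by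
  classical
  obtain ⟨B, hB0, hB⟩ := pE_bound (cm (Am n))
  obtain ⟨C₁, hC₁, hs, -⟩ := Pool.Agent.Y119.HY.SDc.unif (y := fun p : Fin n × Fin n => Gp h p.1 p.2) fun p => hH p.1 p.2
  refine ⟨1, one_ne_zero, 0, (n * B + 1) * C₁, Matrix.of fun a c => Ph h (ix n a) (ix n c), fun a c k m => ?_,
    fun a c k => ?_, ?_⟩
  · rw [Matrix.of_apply, Ph_coeff, map_sum]
    have h1 : ∀ d, ‖coeff m (cx (Gp h (ix n a).1 d) * C ((pE (cm (Am n)) d (ix n c).1 (ix n c).2 (ix n a).2).coeff k))‖ ≤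
        C₁ ^ (m + 1) * B := by
      intro d
      rw [coeff_mul_C, norm_mul, norm_coeff_cx]
      exact mul_le_mul (hs (_, d) m) (hB _ _ _ _ _) (norm_nonneg _) (by positivity)
    refine (norm_sum_le _ _).trans ((Finset.sum_le_sum fun d _ => h1 d).trans ?_)
    rw [Finset.sum_const, Finset.card_univ, Fintype.card_fin, nsmul_eq_mul, mul_pow]
    have h2 : (n : ℝ) * B ≤ (n * B + 1) ^ (m + 1) := by
      have h3 : 0 ≤ (n : ℝ) * B := by positivity
      exact le_trans (by linarith) (le_self_pow₀ (by linarith) (by omega))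
    calc (n : ℝ) * (C₁ ^ (m + 1) * B) = (n * B) * C₁ ^ (m + 1) := by ring
      _ ≤ _ := mul_le_mul_of_nonneg_right h2 (by positivity)
  · have h1 := Phi_ode_s hQ hb (ix n a) (ix n c) k
    simp only [expand_poly one_ne_zero, Polynomial.expand_one]
    simp only [← cxR_apply]
    rw [Nat.cast_zero, zero_mul, sub_zero, Nat.cast_one, one_mul, pow_one]
    have h2 : ∑ l : Fin (n * n), cxR (A2 n D b (ix n a) (ix n l)) * ((Matrix.of fun a c => Ph h (ix n a) (ix n c)) l c).coeff k =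
        ∑ l, cxR (A2 n D b (ix n a) l) * (Ph h l (ix n c)).coeff k :=
      Equiv.sum_comp (ix n) fun l => cxR (A2 n D b (ix n a) l) * (Ph h l (ix n c)).coeff k
    rw [h2, ← h1, map_mul]
    have h3 : cxR Polynomial.X = (X : PowerSeries ℂ) := by
      rw [cxR_apply, Polynomial.map_X, Polynomial.coe_X]
    rw [h3, mul_assoc]
    rfl
  · intro h0
    have h1 := congrArg rho h0
    rw [RingHom.map_det, map_zero] at h1
    have h2 : rho.mapMatrix (Matrix.of fun a c : Fin (n * n) => Ph h (ix n a) (ix n c)) = 1 := by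
      ext a c
      rw [RingHom.mapMatrix_apply, Matrix.map_apply, Matrix.of_apply, rho_Ph hQ, Matrix.one_apply]
      by_cases h3 : a = c
      · rw [if_pos h3, if_pos (by rw [h3])]
      · rw [if_neg h3, if_neg fun h4 => h3 ((ix n).injective h4)]
    rw [h2, Matrix.det_one] at h1
    exact one_ne_zero h1

/-- **the hypothesis of the theorem on tuples** -/
theorem hfam_hf_s (hQ : Sy n M h) (hH : ∀ i j, SDc (Gp h i j)) {W : Matrix (Fin n) (Fin n) ℚ⟦X⟧} (hHW : Gp h * W = 1)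
    (hW : ∀ i j, SDc (W i j)) (δ : ℕ) :
    ∃ (B : Finset (Fin δ → Option (Fin (n * n)))) (a : Polynomial ℤ)
      (M : (Fin δ → Option (Fin (n * n))) → B → Polynomial ℤ), a ≠ 0 ∧
      (∀ b, ps a * yw (gf h) b = ∑ β, ps (M b β) * yw (gf h) β.1) ∧ One (XF δ fun β : B => yw (gf h) β.1) := by
  obtain ⟨D, b, hD, hb⟩ := exists_b_s M
  obtain ⟨q, C, hG⟩ := gsys_Gp hQ hH hHW hW hb
  have hG' := hG.reindex (ix n)
  have hT : Polynomial.X * T1 D ≠ 0 := by
    refine mul_ne_zero Polynomial.X_ne_zero (mul_ne_zero (Polynomial.C_ne_zero.2 (by exact_mod_cast hD)) ?_)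
    intro h0
    have := congrArg (Polynomial.eval 0) h0
    simp at this
  refine family_gsys (h := gf h) (A := fun a c => A2 n D b (ix n a) (ix n c)) hT (fun i => ?_) hG' (qu_hf_s hQ hH hb) δ
  have h1 := ode_A2_s hQ hb (ix n i)
  have h2 : ∑ j : Fin (n * n), ps (A2 n D b (ix n i) (ix n j)) * gf h j =
      ∑ q, ps (A2 n D b (ix n i) q) * Gp h q.1 q.2 :=
    Equiv.sum_comp (ix n) fun q => ps (A2 n D b (ix n i) q) * Gp h q.1 q.2
  exact h1.trans h2.symm

/-- the entries converge for `t > 1` -/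
lemma Cv_Gp (hQ : Sy n M h) {t : ℝ} (ht : 1 < t) (i j : Fin n) : Cv t (Gp h i j) := by
  have h1 := (hQ.sol.growth Pool.Agent.Y119.HY.Ac_nil i j).summable
    (r := 1 / t) (by positivity) (by rw [div_lt_one (by linarith)]; exact ht)
  refine h1.congr fun m => ?_
  congr 1
  unfold Gc
  rw [Pool.Agent.Y119.HY.cm_apply, coeff_Gp]
  have h3 : ((h m i j : ℚ) : ℂ) = (((h m i j : ℚ) : ℝ) : ℂ) := by push_cast; rfl
  rw [h3, Complex.norm_real, Real.norm_eq_abs]

lemma ev_aeval_s (hQ : Sy n M h) {t : ℝ} (ht : 1 < t) (R : MvPolynomial (Fin (n * n)) (Polynomial ℚ)) :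
    Cv t (MvPolynomial.aeval (gf h) R) ∧ ((ev t (MvPolynomial.aeval (gf h) R) : ℝ) : ℂ) =
      MvPolynomial.eval₂ (evq (((1 / t : ℝ)) : ℂ)) (fun j => ((ev t (gf h j) : ℝ) : ℂ)) R := by
  have ht0 : 0 < t := by linarith
  induction R using MvPolynomial.induction_on with
  | C p =>
    have h1 : MvPolynomial.aeval (gf h) (MvPolynomial.C p) = (p : ℚ⟦X⟧) := by
      rw [MvPolynomial.aeval_C, PowerSeries.algebraMap_apply']
      simp
    rw [h1, MvPolynomial.eval₂_C]
    refine ⟨Cv.coe p, ?_⟩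
    rw [ev_coe]
    unfold evq
    have h2 : (((1 / t : ℝ)) : ℂ) = algebraMap ℝ ℂ (1 / t) := rfl
    rw [h2]
    show _ = Polynomial.aeval (algebraMap ℝ ℂ (1 / t)) p
    rw [Polynomial.aeval_algebraMap_apply]
    rfl
  | add p q hp hq =>
    rw [map_add, MvPolynomial.eval₂_add, ← hp.2, ← hq.2, Cv.ev_add ht0 hp.1 hq.1]
    refine ⟨Cv.add ht0 hp.1 hq.1, ?_⟩
    push_cast
    rfl
  | mul_X p j hp =>
    have h1 : Cv t (gf h j) := Cv_Gp hQ ht _ _
    rw [map_mul, MvPolynomial.aeval_X, MvPolynomial.eval₂_mul, MvPolynomial.eval₂_X, ← hp.2, Cv.ev_mul ht0 hp.1 h1]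
    refine ⟨Cv.mul ht0 hp.1 h1, ?_⟩
    push_cast
    rfl

/-- the values -/
lemma ev_Gp (t : ℝ) (i j : Fin n) : ((ev t (Gp h i j) : ℝ) : ℂ) = Hf (Gc h) (((1 / t : ℝ)) : ℂ) i j := by
  unfold Hf
  rw [Matrix.of_apply]
  unfold Pool.Agent.Y119.HY.ps ev
  rw [Complex.ofReal_tsum]
  refine tsum_congr fun m => ?_
  rw [coeff_Gp]
  have h3 : Gc h m i j = ((h m i j : ℚ) : ℂ) := rfl
  show _ = Gc h m i j * _
  rw [h3]
  push_cast
  rfl

end Run7.h893.NF
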